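import Pool.Agent.Lib.MP_3013d0_nt.Stage

open Set Filter Topology

namespace Pool.Agent.Lib.MP_3013d0_nt

/-- lower bound for the total cost of a finite cover of a stage -/
theorem mass_le {h : ℝ → ℝ} {C₀ : ℝ} (hG : Gauge h C₀) (K Cc ρ₀ : ℝ) (hK : 0 < K) (hCc : 1 ≤ Cc)
    (hCc2 : C₀ ≤ Cc) (S : Finset (ℝ × ℝ × ℝ)) (hst : Stage h K Cc ρ₀ S)
    {ι : Type*} (T : Finset ι) (y δ : ι → ℝ) (hδ : ∀ i ∈ T, 0 < δ i) (hδ2 : ∀ i ∈ T, δ i ≤ ρ₀)
    (hcov : ∀ p ∈ S, Icc (p.1 - p.2.1) (p.1 + p.2.1) ⊆ ⋃ i ∈ T, Icc (y i) (y i + δ i)) :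
    1 ≤ 2 * (K * Cc) * ∑ i ∈ T, h (δ i) := by
  classical
  set M : ι → Finset (ℝ × ℝ × ℝ) := fun i => S.filter (fun p => Meets p (y i) (δ i)) with hM
  have hhδ : ∀ i ∈ T, 0 < h (δ i) := fun i hi => hG.pos _ (hδ i hi)
  have hKC : 0 < K * Cc := by positivity
  -- the claim for one member
  have claim : ∀ p ∈ S, p.2.2 ≤ (∑ i ∈ T.filter (fun i => 2 ≤ (M i).card ∧ p ∈ M i), p.2.2) +
      K * Cc * ∑ i ∈ T.filter (fun i => M i = {p}), h (δ i) := by
    intro p hp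
    have hwp := hst.wpos p hp
    have hrp := hst.rpos p hp
    by_cases hex : ∃ i ∈ T, 2 ≤ (M i).card ∧ p ∈ M i
    · obtain ⟨i, hi, hi2⟩ := hex
      have h1 : p.2.2 ≤ ∑ i ∈ T.filter (fun i => 2 ≤ (M i).card ∧ p ∈ M i), p.2.2 :=
        Finset.single_le_sum (f := fun _ => p.2.2) (fun _ _ => hwp.le) (Finset.mem_filter.2 ⟨hi, hi2⟩)
      have h2 : 0 ≤ K * Cc * ∑ i ∈ T.filter (fun i => M i = {p}), h (δ i) := by
        apply mul_nonneg hKC.le
        apply Finset.sum_nonneg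
        intro i hi
        exact (hhδ i (Finset.mem_filter.1 hi).1).le
      linarith
    · push Not at hex
      have h1 : 0 ≤ ∑ i ∈ T.filter (fun i => 2 ≤ (M i).card ∧ p ∈ M i), p.2.2 :=
        Finset.sum_nonneg fun _ _ => hwp.le
      suffices h2 : p.2.2 ≤ K * Cc * ∑ i ∈ T.filter (fun i => M i = {p}), h (δ i) by linarith
      set T₁ := T.filter (fun i => M i = {p}) with hT₁
      have hT₁T : ∀ i ∈ T₁, i ∈ T := fun i hi => (Finset.mem_filter.1 hi).1
      have hcov1 : Icc (p.1 - p.2.1) (p.1 + p.2.1) ⊆ ⋃ i ∈ T₁, Icc (y i) (y i + δ i) := by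
        intro x hx
        have hx2 := hcov p hp hx
        simp only [Set.mem_iUnion] at hx2 ⊢
        obtain ⟨i, hi, hxi⟩ := hx2
        refine ⟨i, ?_, hxi⟩
        have hpM : p ∈ M i := by
          rw [hM, Finset.mem_filter]
          exact ⟨hp, hxi.1.trans hx.2, hx.1.trans hxi.2⟩
        have hlt : (M i).card ≤ 1 := by
          by_contra hc
          exact hex i hi (by omega) hpM
        rw [hT₁, Finset.mem_filter]
        refine ⟨hi, ?_⟩
        rw [Finset.card_le_one_iff_subset_singleton] at hlt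
        obtain ⟨z, hz⟩ := hlt
        have : p = z := Finset.mem_singleton.1 (hz hpM)
        subst this
        exact Finset.Subset.antisymm hz (Finset.singleton_subset_iff.2 hpM)
      have hlen : 2 * p.2.1 ≤ ∑ i ∈ T₁, δ i := by
        have a1 : MeasureTheory.volume (Icc (p.1 - p.2.1) (p.1 + p.2.1)) ≤
            ∑ i ∈ T₁, MeasureTheory.volume (Icc (y i) (y i + δ i)) :=
          (MeasureTheory.measure_mono hcov1).trans (MeasureTheory.measure_biUnion_finset_le _ _)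
        rw [Real.volume_Icc] at a1
        have a2 : ∑ i ∈ T₁, MeasureTheory.volume (Icc (y i) (y i + δ i)) =
            ENNReal.ofReal (∑ i ∈ T₁, δ i) := by
          rw [ENNReal.ofReal_sum_of_nonneg (fun i hi => (hδ i (hT₁T i hi)).le)]
          apply Finset.sum_congr rfl
          intro i _
          rw [Real.volume_Icc]
          congr 1
          ring
        rw [a2] at a1
        have a3 := (ENNReal.ofReal_le_ofReal_iff
          (Finset.sum_nonneg fun i hi => (hδ i (hT₁T i hi)).le)).1 a1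
        linarith
      refine (hst.wle p hp).trans ?_
      rw [mul_assoc]
      apply mul_le_mul_of_nonneg_left _ hK.le
      by_cases hbig : ∃ i ∈ T₁, p.2.1 ≤ δ i
      · obtain ⟨i, hi, hi2⟩ := hbig
        calc h p.2.1 ≤ h (δ i) := hG.mono _ _ hrp hi2
          _ ≤ ∑ i ∈ T₁, h (δ i) :=
              Finset.single_le_sum (f := fun i => h (δ i)) (fun i hi => (hhδ i (hT₁T i hi)).le) hi
          _ = 1 * ∑ i ∈ T₁, h (δ i) := (one_mul _).symm
          _ ≤ Cc * ∑ i ∈ T₁, h (δ i) := by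
              have : 0 ≤ ∑ i ∈ T₁, h (δ i) := Finset.sum_nonneg fun i hi => (hhδ i (hT₁T i hi)).le
              gcongr
      · push Not at hbig
        have hhp := hG.pos _ hrp
        calc h p.2.1 = (h p.2.1 / p.2.1) * p.2.1 := by field_simp
          _ ≤ (h p.2.1 / p.2.1) * ∑ i ∈ T₁, δ i := by
              gcongr
              linarith
          _ = ∑ i ∈ T₁, (h p.2.1 / p.2.1) * δ i := by rw [Finset.mul_sum]
          _ ≤ ∑ i ∈ T₁, Cc * h (δ i) := by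
              apply Finset.sum_le_sum
              intro i hi
              have b1 := hδ i (hT₁T i hi)
              have b2 := hG.quasi (δ i) p.2.1 b1 (hbig i hi).le
              have b3 := hhδ i (hT₁T i hi)
              calc (h p.2.1 / p.2.1) * δ i ≤ (C₀ * (h (δ i) / δ i)) * δ i := by gcongr
                _ = C₀ * h (δ i) := by field_simp
                _ ≤ Cc * h (δ i) := by gcongr
          _ = Cc * ∑ i ∈ T₁, h (δ i) := by rw [Finset.mul_sum]
  -- sum over members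
  have h1 : (1 : ℝ) ≤ ∑ p ∈ S, ((∑ i ∈ T.filter (fun i => 2 ≤ (M i).card ∧ p ∈ M i), p.2.2) +
      K * Cc * ∑ i ∈ T.filter (fun i => M i = {p}), h (δ i)) := by
    rw [← hst.wsum]
    exact Finset.sum_le_sum claim
  rw [Finset.sum_add_distrib, ← Finset.mul_sum] at h1
  have h2 : ∑ p ∈ S, ∑ i ∈ T.filter (fun i => 2 ≤ (M i).card ∧ p ∈ M i), p.2.2 ≤
      K * Cc * ∑ i ∈ T, h (δ i) := by
    have e1 : ∀ p ∈ S, ∑ i ∈ T.filter (fun i => 2 ≤ (M i).card ∧ p ∈ M i), p.2.2 =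
        ∑ i ∈ T, if (2 ≤ (M i).card ∧ p ∈ M i) then p.2.2 else 0 := by
      intro p _
      rw [Finset.sum_filter]
    rw [Finset.sum_congr rfl e1, Finset.sum_comm, Finset.mul_sum]
    apply Finset.sum_le_sum
    intro i hi
    by_cases hc : 2 ≤ (M i).card
    · have e2 : ∑ p ∈ S, (if (2 ≤ (M i).card ∧ p ∈ M i) then p.2.2 else 0) = ∑ p ∈ M i, p.2.2 := by
        have : M i = S.filter (fun p => 2 ≤ (M i).card ∧ p ∈ M i) := by
          ext p
          simp only [Finset.mem_filter, hc, true_and]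
          constructor
          · intro hp; exact ⟨(Finset.mem_filter.1 hp).1, hp⟩
          · intro hp; exact hp.2
        conv_rhs => rw [this]
        rw [Finset.sum_filter]
      rw [e2]
      exact hst.two (y i) (δ i) (hδ i hi) (hδ2 i hi) (M i) (Finset.filter_subset _ _)
        (fun p hp => (Finset.mem_filter.1 hp).2) hc
    · have e2 : ∑ p ∈ S, (if (2 ≤ (M i).card ∧ p ∈ M i) then p.2.2 else 0) = 0 := by
        apply Finset.sum_eq_zero
        intro p _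
        rw [if_neg]
        intro h; exact hc h.1
      rw [e2]
      exact (mul_pos hKC (hhδ i hi)).le
  have h3 : ∑ p ∈ S, ∑ i ∈ T.filter (fun i => M i = {p}), h (δ i) ≤ ∑ i ∈ T, h (δ i) := by
    have e1 : ∀ p ∈ S, ∑ i ∈ T.filter (fun i => M i = {p}), h (δ i) =
        ∑ i ∈ T, if M i = {p} then h (δ i) else 0 := by
      intro p _
      rw [Finset.sum_filter]
    rw [Finset.sum_congr rfl e1, Finset.sum_comm]
    apply Finset.sum_le_sum
    intro i hi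
    by_cases hc : ∃ p ∈ S, M i = {p}
    · obtain ⟨p, hp, hMp⟩ := hc
      rw [Finset.sum_eq_single p]
      · rw [if_pos hMp]
      · intro q _ hqp
        rw [if_neg]
        intro h
        rw [hMp] at h
        exact hqp (Finset.singleton_injective h).symm
      · intro h; exact absurd hp h
    · push Not at hc
      rw [Finset.sum_eq_zero]
      · exact (hhδ i hi).le
      · intro p hp
        rw [if_neg (hc p hp)]
  have h4 : K * Cc * ∑ p ∈ S, ∑ i ∈ T.filter (fun i => M i = {p}), h (δ i) ≤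
      K * Cc * ∑ i ∈ T, h (δ i) := by gcongr
  linarith

/-- the limsup set -/
def Lim (𝒞 : ℕ → Set ℝ) (r : ℕ → ℝ) : Set ℝ :=
  {t | t ∈ Icc (0:ℝ) 1 ∧ ∀ n₀ : ℕ, ∃ k ≥ n₀, ∃ c ∈ 𝒞 k, |t - c| ≤ r k}

/-- Cantor construction: the case when `h` tends to `0` at `0`. -/
theorem cantor_zero {h : ℝ → ℝ} {C₀ : ℝ} (hG : Gauge h C₀) (hz : Tendsto h (𝓝[>] 0) (𝓝 0))
    (c₁ c₂ : ℝ) (M : ℝ) (hM : 0 < M) :
    ∃ ρ > 0, ∀ (𝒞 : ℕ → Set ℝ) (N : ℕ → ℝ), Sys 𝒞 N c₁ c₂ → ∀ r : ℕ → ℝ, (∀ k, 0 < r k) →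
      Tendsto r atTop (𝓝 0) → ¬ Summable (fun k => N k * h (r k)) →
      ∀ (T : Set ℕ) (y δ : ℕ → ℝ), (∀ i, 0 < δ i) → (∀ i, δ i ≤ ρ) →
      Lim 𝒞 r ⊆ ⋃ i ∈ T, Icc (y i) (y i + δ i) →
      ∃ T' : Finset ℕ, (T' : Set ℕ) ⊆ T ∧ M ≤ ∑ i ∈ T', h (δ i) := by
  set Cc := max 1 (max C₀ (2 * C₀ / (c₁ * c₂ / 32))) with hCc
  have hCc1 : 1 ≤ Cc := le_max_left _ _
  have hCc2 : C₀ ≤ Cc := (le_max_left _ _).trans (le_max_right _ _)
  have hCc3 : 2 * C₀ / (c₁ * c₂ / 32) ≤ Cc := (le_max_right _ _).trans (le_max_right _ _)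
  have hC₀pos : 0 < C₀ := by
    have h1 := hG.quasi 1 1 one_pos le_rfl
    have h2 := hG.pos 1 one_pos
    simp only [div_one] at h1
    by_contra hneg
    push Not at hneg
    nlinarith
  -- choose K
  set K := 1 / (6 * Cc * C₀ * M) with hK
  have hCcpos : 0 < Cc := by linarith
  have hKpos : 0 < K := by positivity
  -- choose ρ₀
  obtain ⟨ρ₀, hρ₀, hbig⟩ : ∃ ρ₀ > 0, ∀ δ, 0 < δ → δ ≤ ρ₀ → 4 * δ / (c₁ * c₂ / 32) ≤ K * h δ := by
    have e1 : ∀ᶠ x in 𝓝[>] (0:ℝ), 4 / (c₁ * c₂ / 32) / K ≤ h x / x := hG.big.eventually_ge_atTop _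
    obtain ⟨η, hη, hsub⟩ := mem_nhdsGT_iff_exists_Ioc_subset.1 e1
    refine ⟨η, hη, fun x hx hxη => ?_⟩
    have := hsub ⟨hx, hxη⟩
    simp only [Set.mem_ofPred_eq] at this
    rw [div_le_div_iff₀ hKpos hx] at this
    calc 4 * x / (c₁ * c₂ / 32) = 4 / (c₁ * c₂ / 32) * x := by ring
      _ ≤ h x * K := this
      _ = K * h x := by ring
  refine ⟨ρ₀ / 3, by positivity, ?_⟩
  intro 𝒞 N hS r hr hr0 hdiv T y δ hδ hδρ hcov
  -- the sequence of stages
  obtain ⟨S₀, hS₀⟩ := stage_zero hG hz hS r hr hr0 hdiv K Cc ρ₀ hKpos hCc1 hbig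
  have hsucc : ∀ (n₀ : ℕ) (S : {S : Finset (ℝ × ℝ × ℝ) // Stage h K Cc ρ₀ S}),
      ∃ S' : {S : Finset (ℝ × ℝ × ℝ) // Stage h K Cc ρ₀ S},
        ∀ q ∈ S'.1, (∃ k ≥ n₀, q.1 ∈ 𝒞 k ∧ q.2.1 ≤ r k) ∧
        ∃ p ∈ S.1, p.1 - p.2.1 ≤ q.1 - q.2.1 ∧ q.1 + q.2.1 ≤ p.1 + p.2.1 := by
    intro n₀ S
    obtain ⟨S', h1, h2⟩ := stage_succ hG hz hS r hr hr0 hdiv K Cc ρ₀ hKpos hCc1 hCc3 n₀ S.1 S.2
    exact ⟨⟨S', h1⟩, h2⟩
  choose nxt hnxt using hsucc
  set St : ℕ → {S : Finset (ℝ × ℝ × ℝ) // Stage h K Cc ρ₀ S} :=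
    fun n => Nat.rec ⟨S₀, hS₀⟩ (fun n S => nxt n S) n with hSt
  have hStsucc : ∀ n, St (n + 1) = nxt n (St n) := fun n => rfl
  set Kn : ℕ → Set ℝ := fun n => ⋃ p ∈ (St n).1, Icc (p.1 - p.2.1) (p.1 + p.2.1) with hKn
  have hKn_compact : ∀ n, IsCompact (Kn n) := fun n =>
    (St n).1.isCompact_biUnion fun p _ => isCompact_Icc
  have hKn_succ : ∀ n, Kn (n + 1) ⊆ Kn n := by
    intro n x hx
    simp only [hKn, Set.mem_iUnion] at hx ⊢
    obtain ⟨q, hq, hxq⟩ := hx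
    rw [hStsucc] at hq
    obtain ⟨-, p, hp, h1, h2⟩ := hnxt n (St n) q hq
    exact ⟨p, hp, h1.trans hxq.1, hxq.2.trans h2⟩
  have hKn_anti : Antitone Kn := antitone_nat_of_succ_le hKn_succ
  have hlim : ⋂ n, Kn n ⊆ Lim 𝒞 r := by
    intro x hx
    rw [Set.mem_iInter] at hx
    refine ⟨?_, ?_⟩
    · have h0 := hx 0
      simp only [hKn, Set.mem_iUnion] at h0
      obtain ⟨q, hq, hxq⟩ := h0
      have := (St 0).2.inI q hq
      exact ⟨this.1.trans hxq.1, hxq.2.trans this.2⟩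
    · intro n₀
      have h0 := hx (n₀ + 1)
      simp only [hKn, Set.mem_iUnion] at h0
      obtain ⟨q, hq, hxq⟩ := h0
      rw [hStsucc] at hq
      obtain ⟨⟨k, hk, hqk, hrk⟩, -⟩ := hnxt n₀ (St n₀) q hq
      refine ⟨k, hk, q.1, hqk, ?_⟩
      rw [abs_le]
      constructor <;> linarith [hxq.1, hxq.2]
  -- open enlargements
  set U : ℕ → Set ℝ := fun i => Ioo (y i - δ i) (y i + 2 * δ i) with hU
  have hcovU : ⋂ n, Kn n ⊆ ⋃ i ∈ T, U i := by
    intro x hx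
    have := hcov (hlim hx)
    simp only [Set.mem_iUnion] at this ⊢
    obtain ⟨i, hi, hxi⟩ := this
    refine ⟨i, hi, ?_, ?_⟩
    · linarith [hxi.1, hδ i]
    · linarith [hxi.2, hδ i]
  have hKcomp : IsCompact (⋂ n, Kn n) :=
    (hKn_compact 0).of_isClosed_subset (isClosed_iInter fun n => (hKn_compact n).isClosed)
      (Set.iInter_subset _ 0)
  obtain ⟨T', hT'T, hT'fin, hT'cov⟩ := hKcomp.elim_finite_subcover_image (b := T) (c := U)
    (fun i _ => isOpen_Ioo) hcovU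
  lift T' to Finset ℕ using hT'fin
  -- some stage is inside the open set
  have hopen : IsOpen (⋃ i ∈ T', U i) := isOpen_biUnion fun i _ => isOpen_Ioo
  obtain ⟨n, hn⟩ := exists_subset_nhds_of_isCompact (V := Kn)
    (directed_of_isDirected_le fun i j hij => hKn_anti hij) (fun n => hKn_compact n) (U := ⋃ i ∈ T', U i)
    (fun x hx => hopen.mem_nhds (hT'cov hx))
  refine ⟨T', hT'T, ?_⟩
  have hmass := mass_le hG K Cc ρ₀ hKpos hCc1 hCc2 (St n).1 (St n).2 T' (fun i => y i - δ i)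
    (fun i => 3 * δ i) (fun i _ => by have := hδ i; positivity)
    (fun i _ => by have := hδρ i; linarith)
    (by
      intro p hp x hx
      have hx2 : x ∈ Kn n := by
        simp only [hKn, Set.mem_iUnion]
        exact ⟨p, hp, hx⟩
      have hx3 := hn hx2
      simp only [Set.mem_iUnion] at hx3 ⊢
      obtain ⟨i, hi, hxi⟩ := hx3
      refine ⟨i, hi, hxi.1.le, ?_⟩
      linarith [hxi.2])
  have h3 : ∑ i ∈ T', h (3 * δ i) ≤ 3 * C₀ * ∑ i ∈ T', h (δ i) := by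
    rw [Finset.mul_sum]
    apply Finset.sum_le_sum
    intro i _
    have b1 := hδ i
    have b2 := hG.quasi (δ i) (3 * δ i) b1 (by linarith)
    rw [div_le_iff₀ (by positivity)] at b2
    calc h (3 * δ i) ≤ C₀ * (h (δ i) / δ i) * (3 * δ i) := b2
      _ = 3 * C₀ * h (δ i) := by field_simp
  have h4 : 1 ≤ 2 * (K * Cc) * (3 * C₀ * ∑ i ∈ T', h (δ i)) := by
    refine hmass.trans ?_
    gcongr
  have h5 : 2 * (K * Cc) * (3 * C₀ * ∑ i ∈ T', h (δ i)) = (∑ i ∈ T', h (δ i)) / M := by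
    rw [hK]
    field_simp
    try ring
  rw [h5, le_div_iff₀ hM] at h4
  linarith

/-- a cover of the limsup set by finitely many closed intervals has total length at least `1` -/
theorem dense_cover {𝒞 : ℕ → Set ℝ} {N : ℕ → ℝ} {c₁ c₂ : ℝ} (hS : Sys 𝒞 N c₁ c₂) (r : ℕ → ℝ)
    (hr : ∀ k, 0 < r k) (T : Finset ℕ) (y δ : ℕ → ℝ) (hδ : ∀ i, 0 < δ i)
    (hcov : Lim 𝒞 r ⊆ ⋃ i ∈ T, Icc (y i) (y i + δ i)) : 1 ≤ ∑ i ∈ T, δ i := by
  set U : ℕ → Set ℝ := fun n => (⋃ k ≥ n, ⋃ c ∈ 𝒞 k, Ioo (c - r k) (c + r k)) ∪ (Icc (0:ℝ) 1)ᶜ with hU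
  have hUo : ∀ n, IsOpen (U n) := by
    intro n
    apply IsOpen.union
    · exact isOpen_iUnion fun k => isOpen_iUnion fun _ => isOpen_iUnion fun c =>
        isOpen_iUnion fun _ => isOpen_Ioo
    · exact isClosed_Icc.isOpen_compl
  have hUd : ∀ n, Dense (U n) := by
    intro n
    rw [dense_iff_inter_open]
    intro V hV hVne
    obtain ⟨x, hx⟩ := hVne
    by_cases hx1 : x ∈ Icc (0:ℝ) 1
    · -- find a small interval
      obtain ⟨ε, hε, hball⟩ := Metric.isOpen_iff.1 hV x hx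
      obtain ⟨α, β, h0, h1, h2, h3⟩ : ∃ α β : ℝ, 0 ≤ α ∧ α < β ∧ β ≤ 1 ∧
          ∀ t, α ≤ t → t ≤ β → |t - x| < ε := by
        by_cases hx2 : x ≤ 1 / 2
        · refine ⟨x, x + min (ε / 2) (1 / 2), hx1.1, ?_, ?_, ?_⟩
          · have : 0 < min (ε / 2) (1 / 2 : ℝ) := lt_min (by linarith) (by norm_num)
            linarith
          · have := min_le_right (ε / 2) (1 / 2 : ℝ)
            linarith
          · intro t ht1 ht2
            have := min_le_left (ε / 2) (1 / 2 : ℝ)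
            rw [abs_lt]; constructor <;> linarith
        · push Not at hx2
          refine ⟨x - min (ε / 2) (1 / 2), x, ?_, ?_, hx1.2, ?_⟩
          · have := min_le_right (ε / 2) (1 / 2 : ℝ)
            linarith
          · have : 0 < min (ε / 2) (1 / 2 : ℝ) := lt_min (by linarith) (by norm_num)
            linarith
          · intro t ht1 ht2
            have := min_le_left (ε / 2) (1 / 2 : ℝ)
            rw [abs_lt]; constructor <;> linarith
      obtain ⟨k₀, hk₀⟩ := hS.reg α β h0 h1 h2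
      obtain ⟨X, hX, -, hXc⟩ := hk₀ (max k₀ n) (le_max_left _ _)
      have hXne : X.Nonempty := by
        rw [← Finset.card_pos]
        have h4 : 0 < c₂ * N (max k₀ n) * (β - α) := by
          have := hS.c₂_pos
          have h5 := hS.N_one (max k₀ n)
          have h6 : 0 < β - α := by linarith
          positivity
        have h5 : (0:ℝ) < X.card := lt_of_lt_of_le h4 hXc
        exact_mod_cast h5
      obtain ⟨c, hc⟩ := hXne
      obtain ⟨hc1, hc2, hc3⟩ := hX c hc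
      refine ⟨c, hball ?_, Or.inl ?_⟩
      · rw [Metric.mem_ball, Real.dist_eq]
        exact h3 c hc2 hc3
      · simp only [Set.mem_iUnion]
        refine ⟨max k₀ n, le_max_right _ _, c, hc1, ?_, ?_⟩ <;> linarith [hr (max k₀ n)]
    · exact ⟨x, hx, Or.inr hx1⟩
  have hdense : Dense (⋂ n, U n) := dense_iInter_of_isOpen_nat hUo hUd
  have hsub : (Ioo (0:ℝ) 1) ∩ ⋂ n, U n ⊆ Lim 𝒞 r := by
    rintro x ⟨hx1, hx2⟩
    refine ⟨⟨hx1.1.le, hx1.2.le⟩, ?_⟩
    intro n₀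
    have h1 := Set.mem_iInter.1 hx2 n₀
    rcases h1 with h1 | h1
    · simp only [Set.mem_iUnion] at h1
      obtain ⟨k, hk, c, hc, hxc⟩ := h1
      refine ⟨k, hk, c, hc, ?_⟩
      rw [abs_le]; constructor <;> linarith [hxc.1, hxc.2]
    · exact absurd ⟨hx1.1.le, hx1.2.le⟩ h1
  have hclosed : IsClosed (⋃ i ∈ T, Icc (y i) (y i + δ i)) :=
    Set.Finite.isClosed_biUnion T.finite_toSet fun i _ => isClosed_Icc
  have hIoo : Ioo (0:ℝ) 1 ⊆ ⋃ i ∈ T, Icc (y i) (y i + δ i) := by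
    calc Ioo (0:ℝ) 1 ⊆ closure (Ioo (0:ℝ) 1 ∩ ⋂ n, U n) :=
          hdense.open_subset_closure_inter isOpen_Ioo
      _ ⊆ closure (⋃ i ∈ T, Icc (y i) (y i + δ i)) := closure_mono (hsub.trans hcov)
      _ = _ := hclosed.closure_eq
  have a1 : MeasureTheory.volume (Ioo (0:ℝ) 1) ≤
      ∑ i ∈ T, MeasureTheory.volume (Icc (y i) (y i + δ i)) :=
    (MeasureTheory.measure_mono hIoo).trans (MeasureTheory.measure_biUnion_finset_le _ _)
  rw [Real.volume_Ioo] at a1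
  have a2 : ∑ i ∈ T, MeasureTheory.volume (Icc (y i) (y i + δ i)) =
      ENNReal.ofReal (∑ i ∈ T, δ i) := by
    rw [ENNReal.ofReal_sum_of_nonneg (fun i _ => (hδ i).le)]
    apply Finset.sum_congr rfl
    intro i _
    rw [Real.volume_Icc]
    congr 1
    ring
  rw [a2] at a1
  have a3 := (ENNReal.ofReal_le_ofReal_iff (Finset.sum_nonneg fun i _ => (hδ i).le)).1 a1
  linarith

/-- The full statement about covers of limsup sets of regular systems. -/
theorem cantor {h : ℝ → ℝ} {C₀ : ℝ} (hG : Gauge h C₀) (c₁ c₂ : ℝ) (M : ℝ) (hM : 0 < M) :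
    ∃ ρ > 0, ∀ (𝒞 : ℕ → Set ℝ) (N : ℕ → ℝ), Sys 𝒞 N c₁ c₂ → ∀ r : ℕ → ℝ, (∀ k, 0 < r k) →
      Tendsto r atTop (𝓝 0) → ¬ Summable (fun k => N k * h (r k)) →
      ∀ (T : Set ℕ) (y δ : ℕ → ℝ), (∀ i, 0 < δ i) → (∀ i, δ i ≤ ρ) →
      Lim 𝒞 r ⊆ ⋃ i ∈ T, Icc (y i) (y i + δ i) →
      ∃ T' : Finset ℕ, (T' : Set ℕ) ⊆ T ∧ M ≤ ∑ i ∈ T', h (δ i) := by
  by_cases hz : Tendsto h (𝓝[>] 0) (𝓝 0)
  · exact cantor_zero hG hz c₁ c₂ M hM
  · -- `h` is bounded below
    obtain ⟨h₀, hh₀, hlow⟩ : ∃ h₀ > 0, ∀ x, 0 < x → h₀ ≤ h x := by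
      by_contra hcon
      push Not at hcon
      apply hz
      rw [Metric.tendsto_nhds]
      intro ε hε
      obtain ⟨x, hx, hx2⟩ := hcon ε hε
      have : Ioc 0 x ∈ 𝓝[>] (0:ℝ) := Ioc_mem_nhdsGT hx
      filter_upwards [this] with y hy
      rw [Real.dist_eq, sub_zero, abs_of_pos (hG.pos y hy.1)]
      exact lt_of_le_of_lt (hG.mono y x hy.1 hy.2) hx2
    refine ⟨h₀ / M, by positivity, ?_⟩
    intro 𝒞 N hS r hr _ _ T y δ hδ hδρ hcov
    -- a finite subset with at least `M / h₀` elements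
    obtain ⟨T', hT', hT'c⟩ : ∃ T' : Finset ℕ, (T' : Set ℕ) ⊆ T ∧ M / h₀ ≤ T'.card := by
      by_cases hfin : T.Finite
      · lift T to Finset ℕ using hfin
        refine ⟨T, subset_rfl, ?_⟩
        have h1 := dense_cover hS r hr T y δ hδ hcov
        have h2 : ∑ i ∈ T, δ i ≤ T.card * (h₀ / M) := by
          calc ∑ i ∈ T, δ i ≤ ∑ i ∈ T, h₀ / M := Finset.sum_le_sum fun i _ => hδρ i
            _ = T.card * (h₀ / M) := by rw [Finset.sum_const, nsmul_eq_mul]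
        have h3 : 1 ≤ T.card * (h₀ / M) := h1.trans h2
        rw [div_le_iff₀ hh₀]
        have h4 : (T.card : ℝ) * (h₀ / M) = T.card * h₀ / M := by ring
        rw [h4, le_div_iff₀ hM] at h3
        linarith
      · obtain ⟨T', hT', hc⟩ := Set.Infinite.exists_subset_card_eq hfin ⌈M / h₀⌉₊
        refine ⟨T', hT', ?_⟩
        rw [hc]
        exact Nat.le_ceil _
    refine ⟨T', hT', ?_⟩
    calc M = M / h₀ * h₀ := by field_simp
      _ ≤ T'.card * h₀ := by gcongr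
      _ = ∑ i ∈ T', h₀ := by rw [Finset.sum_const, nsmul_eq_mul]
      _ ≤ ∑ i ∈ T', h (δ i) := Finset.sum_le_sum fun i _ => hlow _ (hδ i)

end Pool.Agent.Lib.MP_3013d0_nt
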