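import Pool.Agent.Lib.MP_3013d0_nt.Step

open Set Filter Topology
open scoped ENNReal

namespace Pool.Agent.Lib.MP_3013d0_nt

/-- the sup norm of an integer vector -/
def nrm {m : ℕ} (q : Fin m → ℤ) : ℕ := Finset.univ.sup (fun j => (q j).natAbs)

theorem nrm_pos {m : ℕ} {q : Fin m → ℤ} (hq : q ≠ 0) : 0 < nrm q := by
  obtain ⟨i₀, hi₀⟩ : ∃ i, q i ≠ 0 := by
    by_contra hcon
    push Not at hcon
    exact hq (funext hcon)
  have h1 : (q i₀).natAbs ≤ nrm q := Finset.le_sup (f := fun j => (q j).natAbs) (Finset.mem_univ i₀)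
  have h2 : 0 < (q i₀).natAbs := Int.natAbs_pos.2 hi₀
  omega

theorem natAbs_le_nrm {m : ℕ} (q : Fin m → ℤ) (i : Fin m) : (q i).natAbs ≤ nrm q :=
  Finset.le_sup (f := fun j => (q j).natAbs) (Finset.mem_univ i)

/-- boxes -/
theorem card_box (m L : ℕ) : ((Fintype.piFinset (fun _ : Fin m =>
    Finset.Ioo (-((L : ℕ):ℤ)) ((L : ℕ) : ℤ))).card : ℝ) ≤ (2 * (L:ℝ)) ^ m := by
  rw [Fintype.card_piFinset]
  simp only [Finset.prod_const, Finset.card_univ, Fintype.card_fin, Int.card_Ioo]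
  rw [Nat.cast_pow]
  apply pow_le_pow_left₀ (by positivity)
  have h2 : (((L : ℕ):ℤ) - -((L : ℕ):ℤ) - 1).toNat ≤ 2 * L := by omega
  exact_mod_cast h2

/-- condensation: divergence of the volume sum implies divergence along dyadic levels -/
theorem div_dyadic (n : ℕ) {h : ℝ → ℝ} {C₀ : ℝ} (hG : Gauge h C₀) (ψ : ℕ → ℝ)
    (hψpos : ∀ n, 0 < ψ n) (hψ : Antitone ψ)
    (hdiv : ∑' q : {q : Fin (n + 1) → ℤ // q ≠ 0},
      ENNReal.ofReal ((nrm q.1 : ℝ) * h (ψ (nrm q.1) / nrm q.1)) = ⊤) :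
    ¬ Summable (fun k : ℕ => ((2:ℝ) ^ k) ^ (n + 2) *
      h (ψ (2 ^ (k + n + 7)) / (2 * 2 ^ (k + n + 7)))) := by
  classical
  intro hsum
  have hC₀pos : 0 < C₀ := by
    have h1 := hG.quasi 1 1 one_pos le_rfl
    have h2 := hG.pos 1 one_pos
    simp only [div_one] at h1
    by_contra hneg
    push Not at hneg
    nlinarith
  set A : ℕ → ℝ := fun L => (2 * ((2 ^ (L + 1) : ℕ) : ℝ)) ^ (n + 1) *
    (2 ^ (L + 1) * h (ψ (2 ^ L) / 2 ^ L)) with hA
  have hApos : ∀ L, 0 ≤ A L := by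
    intro L
    have h1 : 0 < h (ψ (2 ^ L) / 2 ^ L) := hG.pos _ (div_pos (hψpos _) (by positivity))
    simp only [hA]
    positivity
  -- `A` is summable
  have hAsum : Summable A := by
    rw [← summable_nat_add_iff (n + 7)]
    have hc : Summable (fun k : ℕ => (2 ^ (n + 9)) ^ (n + 1) * 2 ^ (n + 8) * (2 * C₀) *
        (((2:ℝ) ^ k) ^ (n + 2) * h (ψ (2 ^ (k + n + 7)) / (2 * 2 ^ (k + n + 7))))) :=
      hsum.mul_left _
    refine Summable.of_nonneg_of_le (fun k => hApos _) (fun k => ?_) hc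
    simp only [hA]
    have e1 : k + (n + 7) = k + n + 7 := by ring
    rw [e1]
    set B : ℝ := 2 ^ (k + n + 7) with hB
    have hBpos : 0 < B := by positivity
    set ρ : ℝ := ψ (2 ^ (k + n + 7)) / (2 * B) with hρ
    have hρpos : 0 < ρ := div_pos (hψpos _) (by positivity)
    have h1 : ψ (2 ^ (k + n + 7)) / B = 2 * ρ := by
      rw [hρ]; field_simp
    have h2 : h (2 * ρ) ≤ 2 * C₀ * h ρ := by
      have b2 := hG.quasi ρ (2 * ρ) hρpos (by linarith)
      rw [div_le_iff₀ (by positivity)] at b2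
      calc h (2 * ρ) ≤ C₀ * (h ρ / ρ) * (2 * ρ) := b2
        _ = 2 * C₀ * h ρ := by field_simp
    rw [h1]
    have hhρ := hG.pos ρ hρpos
    calc (2 * ((2 ^ (k + n + 7 + 1) : ℕ) : ℝ)) ^ (n + 1) * (2 ^ (k + n + 7 + 1) * h (2 * ρ))
        ≤ (2 * ((2 ^ (k + n + 7 + 1) : ℕ) : ℝ)) ^ (n + 1) * (2 ^ (k + n + 7 + 1) * (2 * C₀ * h ρ)) := by
          gcongr
      _ = (2 ^ (n + 9)) ^ (n + 1) * 2 ^ (n + 8) * (2 * C₀) * (((2:ℝ) ^ k) ^ (n + 2) * h ρ) := by
          push_cast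
          have e2 : (2:ℝ) * 2 ^ (k + n + 7 + 1) = 2 ^ k * 2 ^ (n + 9) := by ring
          have e3 : (2:ℝ) ^ (k + n + 7 + 1) = 2 ^ k * 2 ^ (n + 8) := by ring
          rw [e2, e3, mul_pow]
          ring
  -- bound the sum
  set g : {q : Fin (n + 1) → ℤ // q ≠ 0} → ℝ≥0∞ := fun q =>
    ENNReal.ofReal ((nrm q.1 : ℝ) * h (ψ (nrm q.1) / nrm q.1)) with hg
  have h1 : ∑' q, g q = ∑' L : ℕ, ∑' q, if L = Nat.log 2 (nrm q.1) then g q else 0 := by
    rw [ENNReal.tsum_comm]
    congr 1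
    funext q
    rw [tsum_ite_eq]
  have h2 : ∀ L : ℕ, (∑' q, if L = Nat.log 2 (nrm q.1) then g q else 0) ≤ ENNReal.ofReal (A L) := by
    intro L
    -- finite support
    set F : Finset (Fin (n + 1) → ℤ) := Fintype.piFinset (fun _ : Fin (n + 1) =>
      Finset.Ioo (-((2 ^ (L + 1) : ℕ):ℤ)) ((2 ^ (L + 1) : ℕ) : ℤ)) with hF
    set F' : Finset {q : Fin (n + 1) → ℤ // q ≠ 0} := F.subtype (fun q => q ≠ 0) with hF'
    have hcard : (F'.card : ℝ) ≤ (2 * ((2 ^ (L + 1) : ℕ) : ℝ)) ^ (n + 1) := by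
      refine le_trans ?_ (card_box (n + 1) (2 ^ (L + 1)))
      rw [← hF, hF', Finset.card_subtype]
      exact_mod_cast Finset.card_le_card (Finset.filter_subset _ _)
    have hmem : ∀ q : {q : Fin (n + 1) → ℤ // q ≠ 0}, q ∉ F' →
        (if L = Nat.log 2 (nrm q.1) then g q else 0) = 0 := by
      intro q hq
      rw [if_neg]
      intro hL
      apply hq
      rw [hF', Finset.mem_subtype, hF, Fintype.mem_piFinset]
      intro i
      have hlt : nrm q.1 < 2 ^ (L + 1) := by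
        rw [hL]
        exact Nat.lt_pow_succ_log_self (by norm_num) _
      have hi := natAbs_le_nrm q.1 i
      rw [Finset.mem_Ioo]
      have hi2 : (q.1 i).natAbs < 2 ^ (L + 1) := lt_of_le_of_lt hi hlt
      constructor <;> omega
    rw [tsum_eq_sum (s := F') (fun q hq => hmem q hq)]
    calc ∑ q ∈ F', (if L = Nat.log 2 (nrm q.1) then g q else 0)
        ≤ ∑ q ∈ F', ENNReal.ofReal (2 ^ (L + 1) * h (ψ (2 ^ L) / 2 ^ L)) := by
          apply Finset.sum_le_sum
          intro q _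
          split_ifs with hL
          · simp only [hg]
            apply ENNReal.ofReal_le_ofReal
            have hn0 := nrm_pos q.2
            have hlow : 2 ^ L ≤ nrm q.1 := by
              rw [hL]
              exact Nat.pow_log_le_self 2 hn0.ne'
            have hlt : nrm q.1 < 2 ^ (L + 1) := by
              rw [hL]
              exact Nat.lt_pow_succ_log_self (by norm_num) _
            have hn0' : (0:ℝ) < nrm q.1 := by exact_mod_cast hn0
            have hlow' : (2:ℝ) ^ L ≤ nrm q.1 := by exact_mod_cast hlow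
            have hlt' : (nrm q.1 : ℝ) ≤ 2 ^ (L + 1) := by exact_mod_cast hlt.le
            have hle : ψ (nrm q.1) / nrm q.1 ≤ ψ (2 ^ L) / 2 ^ L := by
              apply div_le_div₀ (hψpos _).le (hψ hlow) (by positivity) hlow'
            have hpos : 0 < ψ (nrm q.1) / nrm q.1 := div_pos (hψpos _) hn0'
            have h3 := hG.mono _ _ hpos hle
            have h4 := hG.pos _ hpos
            calc (nrm q.1 : ℝ) * h (ψ (nrm q.1) / nrm q.1)
                ≤ 2 ^ (L + 1) * h (ψ (nrm q.1) / nrm q.1) := by gcongr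
              _ ≤ _ := by gcongr
          · exact zero_le
      _ = ENNReal.ofReal (F'.card * (2 ^ (L + 1) * h (ψ (2 ^ L) / 2 ^ L))) := by
          rw [Finset.sum_const, nsmul_eq_mul, ENNReal.ofReal_mul (Nat.cast_nonneg _),
            ENNReal.ofReal_natCast]
      _ ≤ ENNReal.ofReal (A L) := by
          apply ENNReal.ofReal_le_ofReal
          simp only [hA]
          have h1 : 0 < h (ψ (2 ^ L) / 2 ^ L) := hG.pos _ (div_pos (hψpos _) (by positivity))
          gcongr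
  have h3 : ∑' q, g q ≤ ∑' L, ENNReal.ofReal (A L) := by
    rw [h1]
    exact ENNReal.tsum_le_tsum h2
  have h4 : ∑' L, ENNReal.ofReal (A L) ≠ ⊤ := hAsum.tsum_ofReal_ne_top
  exact h4 (top_le_iff.1 (hdiv ▸ h3))

end Pool.Agent.Lib.MP_3013d0_nt
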