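import Pool.Agent.Lib.MP_3013d0_nt.Step

open Set Filter Topology

namespace Pool.Agent.Lib.MP_3013d0_nt

/-- From a dimension function with condition (A) to a gauge on the line. -/
theorem gauge_of (N : ℕ) (f : ℝ → ℝ) (hpos : ∀ r, 0 < r → 0 < f r) (hcont : ContinuousOn f (Ioi 0))
    (s C : ℝ) (hs : s < N + 1) (hC : 0 < C)
    (hA : ∀ x y, 0 < x → x < y → f y ≤ C * (y / x) ^ s * f x)
    (hmono : MonotoneOn (fun x => f x / x ^ N) (Ioi 0)) :
    Gauge (fun x => f x / x ^ N) (max 1 C) := by
  refine ⟨?_, ?_, ?_, ?_, ?_⟩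
  · intro x hx
    exact div_pos (hpos x hx) (by positivity)
  · intro x y hx hxy
    exact hmono hx (lt_of_lt_of_le hx hxy) hxy
  · apply hcont.div (by fun_prop)
    intro x hx
    exact (pow_pos hx N).ne'
  · intro x y hx hxy
    rcases eq_or_lt_of_le hxy with rfl | hlt
    · have h1 : 0 ≤ f x / x ^ N / x := by
        have := hpos x hx
        positivity
      calc f x / x ^ N / x = 1 * (f x / x ^ N / x) := (one_mul _).symm
        _ ≤ max 1 C * (f x / x ^ N / x) := by
            gcongr
            exact le_max_left _ _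
    · have hy : 0 < y := hx.trans hlt
      have hyx : 1 < y / x := by rw [one_lt_div hx]; exact hlt
      have h2 : (y / x) ^ s ≤ (y / x) ^ (N + 1) := by
        rw [← Real.rpow_natCast]
        apply Real.rpow_le_rpow_of_exponent_le hyx.le
        push_cast
        exact hs.le
      have hfx := hpos x hx
      have h3 : f y ≤ max 1 C * (y / x) ^ (N + 1) * f x := by
        refine (hA x y hx hlt).trans ?_
        have : C ≤ max 1 C := le_max_right _ _
        gcongr
      have e1 : f y / y ^ N / y = f y / y ^ (N + 1) := by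
        rw [div_div, pow_succ]
      have e2 : f x / x ^ N / x = f x / x ^ (N + 1) := by
        rw [div_div, pow_succ]
      rw [e1, e2, div_le_iff₀ (by positivity)]
      refine h3.trans (le_of_eq ?_)
      rw [div_pow]
      field_simp
  · -- `f x / x^(N+1) → ∞`
    have hf1 := hpos 1 one_pos
    have t1 : Tendsto (fun x : ℝ => (f 1 / C) * x ^ (s - (N + 1))) (𝓝[>] 0) atTop := by
      apply Tendsto.const_mul_atTop (by positivity)
      exact tendsto_rpow_neg_nhdsGT_zero (by linarith)
    refine tendsto_atTop_mono' _ ?_ t1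
    have hmem : Ioo (0:ℝ) 1 ∈ 𝓝[>] (0:ℝ) := Ioo_mem_nhdsGT one_pos
    filter_upwards [hmem] with x hx
    have hx0 := hx.1
    have h1 := hA x 1 hx0 hx.2
    have h2 : ((1:ℝ) / x) ^ s = x ^ (-s) := by
      rw [one_div, Real.inv_rpow hx0.le, Real.rpow_neg hx0.le]
    rw [h2] at h1
    have h3 : x ^ (s - (N + 1)) = x ^ s / x ^ (N + 1) := by
      rw [Real.rpow_sub hx0]
      congr 1
      rw [← Real.rpow_natCast]
      push_cast
      rfl
    have h4 : x ^ (-s) * x ^ s = 1 := by
      rw [← Real.rpow_add hx0, neg_add_cancel, Real.rpow_zero]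
    have h5 : (f 1 / C) * x ^ s ≤ f x := by
      rw [div_mul_eq_mul_div, div_le_iff₀ hC]
      calc f 1 * x ^ s ≤ C * x ^ (-s) * f x * x ^ s := by
            have : 0 < x ^ s := Real.rpow_pos_of_pos hx0 _
            gcongr
        _ = f x * C * (x ^ (-s) * x ^ s) := by ring
        _ = f x * C := by rw [h4, mul_one]
    have e2 : f x / x ^ N / x = f x / x ^ (N + 1) := by
      rw [div_div, pow_succ]
    simp only [e2]
    rw [h3, ← mul_div_assoc]
    gcongr

end Pool.Agent.Lib.MP_3013d0_nt
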