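import Pool.Agent.Lib.MP_3013d0_nt.Step

open Set Filter Topology

namespace Pool.Agent.Lib.MP_3013d0_nt

/-- good finite families inside `[α, β]` -/
structure Fam (h : ℝ → ℝ) (𝒞 : ℕ → Set ℝ) (r : ℕ → ℝ) (A η : ℝ) (n₀ : ℕ) (α β : ℝ)
    (F : Finset (ℝ × ℝ)) : Prop where
  ok : ∀ p ∈ F, 0 < p.2 ∧ p.2 ≤ η ∧ (∃ k ≥ n₀, p.1 ∈ 𝒞 k ∧ p.2 ≤ r k) ∧
    α ≤ p.1 - A * h p.2 ∧ p.1 + A * h p.2 ≤ β
  sep : ∀ p ∈ F, ∀ q ∈ F, p ≠ q → A * h p.2 + A * h q.2 < |p.1 - q.1|

/-- one greedy step at a level `k` -/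
theorem greedy_step {h : ℝ → ℝ} {𝒞 : ℕ → Set ℝ} {r : ℕ → ℝ} {A η : ℝ} {n₀ : ℕ} {α β c₁ c₂ Nk : ℝ}
    {k : ℕ} (hc₁ : 0 < c₁) (hc₂ : 0 < c₂) (hNk : 0 < Nk) (hA : 0 < A) (hαβ : α < β)
    (hk : n₀ ≤ k) (hr : 0 < r k) (hrη : r k ≤ η) (hhk : 0 < h (r k))
    (hhp : ∀ x, 0 < x → 0 < h x)
    (hsmall : A * h (r k) * Nk < c₁ / 4)
    (hsmall2 : A * h (r k) ≤ (β - α) / 4)
    (X : Finset ℝ) (hX : ∀ x ∈ X, x ∈ 𝒞 k ∧ α + (β - α) / 4 ≤ x ∧ x ≤ β - (β - α) / 4)
    (hXsep : ∀ x ∈ X, ∀ y ∈ X, x ≠ y → c₁ / Nk ≤ |x - y|)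
    (hXcard : c₂ * Nk * ((β - α) / 2) ≤ X.card)
    (n : ℕ) (hbig : 2 * (n : ℝ) + 2 ≤ c₂ * (β - α) / 16 * Nk)
    (F : Finset (ℝ × ℝ)) (hF : Fam h 𝒞 r A η n₀ α β F)
    (hFcard : (F.card : ℝ) ≤ c₂ / 8 * (β - α) * Nk / 3 + n)
    (hT : ∑ p ∈ F, A * h p.2 < c₁ * c₂ / 32 * (β - α)) :
    ∃ F' : Finset (ℝ × ℝ), Fam h 𝒞 r A η n₀ α β F' ∧
      (F'.card : ℝ) ≤ c₂ / 8 * (β - α) * (4 * Nk) / 3 + (n + 1) ∧
      ∑ p ∈ F, A * h p.2 + c₂ / 8 * (β - α) * (Nk * (A * h (r k))) ≤ ∑ p ∈ F', A * h p.2 := by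
  classical
  have hℓ : 0 < β - α := by linarith
  set ℓ := β - α with hℓdef
  set Y := X.filter (fun x => ∀ p ∈ F, A * h p.2 + A * h (r k) < |x - p.1|) with hY
  have hτ : 0 < c₁ / Nk := div_pos hc₁ hNk
  -- bound on excluded points
  have hexcl : ((X \ Y).card : ℝ) ≤ ∑ p ∈ F, (2 * (A * h p.2 + A * h (r k)) * Nk / c₁ + 1) := by
    have h1 : X \ Y ⊆ F.biUnion (fun p => X.filter (fun x => |x - p.1| ≤ A * h p.2 + A * h (r k))) := by
      intro x hx
      rw [Finset.mem_sdiff, hY, Finset.mem_filter, not_and] at hx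
      have h2 := hx.2 hx.1
      push Not at h2
      obtain ⟨p, hp, hp2⟩ := h2
      rw [Finset.mem_biUnion]
      exact ⟨p, hp, Finset.mem_filter.2 ⟨hx.1, hp2⟩⟩
    have h2 : ((X \ Y).card : ℝ) ≤
        ((∑ p ∈ F, (X.filter (fun x => |x - p.1| ≤ A * h p.2 + A * h (r k))).card : ℕ) : ℝ) := by
      exact_mod_cast (Finset.card_le_card h1).trans Finset.card_biUnion_le
    refine h2.trans ?_
    push_cast
    apply Finset.sum_le_sum
    intro p hp
    have hp0 := (hF.ok p hp).1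
    have hhp0 := hhp _ hp0
    have hρ : 0 < A * h p.2 + A * h (r k) := by positivity
    have h3 := card_le_of_sep (X.filter (fun x => |x - p.1| ≤ A * h p.2 + A * h (r k)))
      (p.1 - (A * h p.2 + A * h (r k))) (p.1 + (A * h p.2 + A * h (r k))) (c₁ / Nk) hτ (by linarith)
      (by
        intro x hx
        rw [Finset.mem_filter, abs_le] at hx
        constructor <;> linarith [hx.2.1, hx.2.2])
      (by
        intro x hx y hy hxy
        exact hXsep x (Finset.mem_filter.1 hx).1 y (Finset.mem_filter.1 hy).1 hxy)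
    refine h3.trans (le_of_eq ?_)
    field_simp
    ring
  have hexcl2 : ((X \ Y).card : ℝ) ≤ c₂ * Nk * ℓ / 4 := by
    refine hexcl.trans ?_
    have h1 : ∑ p ∈ F, (2 * (A * h p.2 + A * h (r k)) * Nk / c₁ + 1) =
        2 * Nk / c₁ * (∑ p ∈ F, A * h p.2) + F.card * (2 * (A * h (r k) * Nk) / c₁ + 1) := by
      rw [Finset.mul_sum, ← nsmul_eq_mul, ← Finset.sum_const, ← Finset.sum_add_distrib]
      apply Finset.sum_congr rfl
      intro p _
      ring
    rw [h1]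
    have h2 : 2 * Nk / c₁ * (∑ p ∈ F, A * h p.2) ≤ 2 * Nk / c₁ * (c₁ * c₂ / 32 * ℓ) := by
      gcongr
    have h3 : 2 * Nk / c₁ * (c₁ * c₂ / 32 * ℓ) = c₂ * Nk * ℓ / 16 := by
      field_simp
      ring
    have h4 : 2 * (A * h (r k) * Nk) / c₁ + 1 ≤ 3 / 2 := by
      have : 2 * (A * h (r k) * Nk) / c₁ ≤ 1 / 2 := by
        rw [div_le_iff₀ hc₁]
        linarith
      linarith
    have h5 : (F.card : ℝ) * (2 * (A * h (r k) * Nk) / c₁ + 1) ≤ (c₂ / 8 * ℓ * Nk / 3 + n) * (3 / 2) := by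
      apply mul_le_mul hFcard h4 (by positivity) (by positivity)
    nlinarith [hbig, h2, h3, h5]
  have hYcard : c₂ * Nk * ℓ / 4 ≤ Y.card := by
    have h1 : (X.card : ℝ) = (X \ Y).card + Y.card := by
      have : (X \ Y).card + Y.card = X.card := Finset.card_sdiff_add_card_eq_card (Finset.filter_subset _ _)
      exact_mod_cast this.symm
    nlinarith [hexcl2, hXcard, h1]
  -- choose the subset
  have hm : ⌈c₂ / 8 * ℓ * Nk⌉₊ ≤ Y.card := by
    have h1 : (⌈c₂ / 8 * ℓ * Nk⌉₊ : ℝ) ≤ Y.card := by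
      have h2 : (⌈c₂ / 8 * ℓ * Nk⌉₊ : ℝ) < c₂ / 8 * ℓ * Nk + 1 := Nat.ceil_lt_add_one (by positivity)
      have h3 : (0 : ℝ) ≤ n := Nat.cast_nonneg n
      nlinarith [hYcard, hbig]
    exact_mod_cast h1
  obtain ⟨Z, hZY, hZcard⟩ := Finset.exists_subset_card_eq hm
  have hZprop : ∀ x ∈ Z, x ∈ X ∧ ∀ p ∈ F, A * h p.2 + A * h (r k) < |x - p.1| := by
    intro x hx
    exact Finset.mem_filter.1 (hZY hx)
  set G := Z.image (fun x => (x, r k)) with hG
  have hinj : Function.Injective (fun x : ℝ => (x, r k)) := by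
    intro x y hxy
    exact (Prod.ext_iff.1 hxy).1
  have hdisj : Disjoint F G := by
    rw [Finset.disjoint_left]
    intro p hp hpG
    rw [hG, Finset.mem_image] at hpG
    obtain ⟨x, hx, rfl⟩ := hpG
    have h1 := (hZprop x hx).2 _ hp
    have h2 := hhp _ (hF.ok _ hp).1
    simp only [sub_self, abs_zero] at h1 h2
    nlinarith [mul_pos hA h2]
  refine ⟨F ∪ G, ⟨?_, ?_⟩, ?_, ?_⟩
  · intro p hp
    rw [Finset.mem_union] at hp
    rcases hp with hp | hp
    · exact hF.ok p hp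
    · rw [hG, Finset.mem_image] at hp
      obtain ⟨x, hx, rfl⟩ := hp
      have h1 := hX x (hZprop x hx).1
      refine ⟨hr, hrη, ⟨k, hk, h1.1, le_rfl⟩, ?_, ?_⟩
      · simp only; linarith [h1.2.1]
      · simp only; linarith [h1.2.2]
  · intro p hp q hq hpq
    rw [Finset.mem_union] at hp hq
    rcases hp with hp | hp <;> rcases hq with hq | hq
    · exact hF.sep p hp q hq hpq
    · rw [hG, Finset.mem_image] at hq
      obtain ⟨x, hx, rfl⟩ := hq
      have h1 := (hZprop x hx).2 p hp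
      rw [abs_sub_comm]
      exact h1
    · rw [hG, Finset.mem_image] at hp
      obtain ⟨x, hx, rfl⟩ := hp
      have h1 := (hZprop x hx).2 q hq
      simp only
      linarith
    · rw [hG, Finset.mem_image] at hp hq
      obtain ⟨x, hx, rfl⟩ := hp
      obtain ⟨y, hy, rfl⟩ := hq
      have hxy : x ≠ y := fun h => hpq (by rw [h])
      have h1 := hXsep x (hZprop x hx).1 y (hZprop y hy).1 hxy
      simp only
      refine lt_of_lt_of_le ?_ h1
      rw [lt_div_iff₀ hNk]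
      nlinarith
  · rw [Finset.card_union_of_disjoint hdisj, hG, Finset.card_image_of_injective _ hinj, hZcard]
    push_cast
    have h2 : (⌈c₂ / 8 * ℓ * Nk⌉₊ : ℝ) < c₂ / 8 * ℓ * Nk + 1 := Nat.ceil_lt_add_one (by positivity)
    nlinarith [hFcard]
  · rw [Finset.sum_union hdisj, hG, Finset.sum_image (fun x _ y _ h => hinj h)]
    simp only [Finset.sum_const, hZcard, nsmul_eq_mul]
    have h2 : c₂ / 8 * ℓ * Nk ≤ (⌈c₂ / 8 * ℓ * Nk⌉₊ : ℝ) := Nat.le_ceil _
    have h3 : 0 < A * h (r k) := by positivity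
    have h4 : c₂ / 8 * ℓ * (Nk * (A * h (r k))) ≤ (⌈c₂ / 8 * ℓ * Nk⌉₊ : ℝ) * (A * h (r k)) := by
      calc c₂ / 8 * ℓ * (Nk * (A * h (r k))) = (c₂ / 8 * ℓ * Nk) * (A * h (r k)) := by ring
        _ ≤ _ := by gcongr
    linarith

/-- the one step lemma -/
theorem one_step {h : ℝ → ℝ} {C₀ : ℝ} (hG : Gauge h C₀) (hz : Tendsto h (𝓝[>] 0) (𝓝 0))
    {𝒞 : ℕ → Set ℝ} {N : ℕ → ℝ} {c₁ c₂ : ℝ} (hS : Sys 𝒞 N c₁ c₂) (r : ℕ → ℝ) (hr : ∀ k, 0 < r k)
    (hr0 : Tendsto r atTop (𝓝 0)) (hdiv : ¬ Summable (fun k => N k * h (r k)))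
    (α β A η : ℝ) (n₀ : ℕ) (h0 : 0 ≤ α) (h1 : α < β) (h2 : β ≤ 1) (hA : 0 < A) (hη : 0 < η) :
    ∃ F : Finset (ℝ × ℝ), Fam h 𝒞 r A η n₀ α β F ∧
      c₁ * c₂ / 32 * (β - α) ≤ ∑ p ∈ F, A * h p.2 := by
  classical
  have hℓ : 0 < β - α := by linarith
  have hc₁ := hS.c₁_pos
  have hc₂ := hS.c₂_pos
  have hNpos : ∀ k, 0 < N k := fun k => lt_of_lt_of_le one_pos (hS.N_one k)
  have hrh : Tendsto (fun k => h (r k)) atTop (𝓝 0) := by
    apply hz.comp
    rw [tendsto_nhdsWithin_iff]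
    exact ⟨hr0, Eventually.of_forall hr⟩
  -- eventually good parameters
  obtain ⟨k₀, hk₀⟩ := hS.reg (α + (β - α) / 4) (β - (β - α) / 4) (by linarith) (by linarith)
    (by linarith)
  obtain ⟨k₁, hk₁⟩ := hS.eventually_big (c₂ * (β - α) / 16) (by positivity)
  have e1 : ∀ᶠ k in atTop, r k ≤ η := (hr0.eventually (gt_mem_nhds hη)).mono fun k hk => hk.le
  have e2 : ∀ᶠ k in atTop, A * h (r k) ≤ (β - α) / 4 := by
    have := (hrh.const_mul A)
    rw [mul_zero] at this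
    exact (this.eventually (gt_mem_nhds (show (0:ℝ) < (β - α) / 4 by positivity))).mono fun k hk => hk.le
  have e3 : ∀ᶠ k in atTop, c₁ / (4 * N k) ≤ (β - α) / 4 := by
    have t1 : Tendsto (fun k => c₁ / (4 * N k)) atTop (𝓝 0) := by
      apply Tendsto.const_div_atTop
      exact hS.tendsto_N.const_mul_atTop (by norm_num)
    exact (t1.eventually (gt_mem_nhds (show (0:ℝ) < (β - α) / 4 by positivity))).mono fun k hk => hk.le
  obtain ⟨k₂, hk₂⟩ := eventually_atTop.1 (e1.and (e2.and e3))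
  set K := max (max k₀ k₁) (max k₂ n₀) with hK
  have hK0 : k₀ ≤ K := (le_max_left _ _).trans (le_max_left _ _)
  have hK1 : k₁ ≤ K := (le_max_right _ _).trans (le_max_left _ _)
  have hK2 : k₂ ≤ K := (le_max_left _ _).trans (le_max_right _ _)
  have hK3 : n₀ ≤ K := (le_max_right _ _).trans (le_max_right _ _)
  by_cases hcase : ∃ k ≥ K, c₁ / 4 ≤ A * h (r k) * N k
  · -- Case 1
    obtain ⟨k, hkK, hk⟩ := hcase
    have hNk := hNpos k
    obtain ⟨g1, g2, g3⟩ := hk₂ k (hK2.trans hkK)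
    obtain ⟨X, hX, hXsep, hXcard⟩ := hk₀ k (hK0.trans hkK)
    -- reduce the radius
    obtain ⟨ρ, hρ0, hρr, hρh⟩ : ∃ ρ, 0 < ρ ∧ ρ ≤ r k ∧ A * h ρ = c₁ / (4 * N k) := by
      have hv : 0 < c₁ / (4 * N k * A) := by positivity
      have t1 : ∀ᶠ x in 𝓝[>] (0:ℝ), h x < c₁ / (4 * N k * A) := hz.eventually (gt_mem_nhds hv)
      have t2 : ∀ᶠ x in 𝓝[>] (0:ℝ), x < r k :=
        nhdsWithin_le_nhds (gt_mem_nhds (hr k))
      have t3 : ∀ᶠ x in 𝓝[>] (0:ℝ), 0 < x := self_mem_nhdsWithin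
      obtain ⟨x, hx1, hx2, hx3⟩ := (t1.and (t2.and t3)).exists
      have hcont : ContinuousOn h (Icc x (r k)) := hG.cont.mono fun y hy => lt_of_lt_of_le hx3 hy.1
      have hiv := intermediate_value_Icc hx2.le hcont
      have hmem : c₁ / (4 * N k * A) ∈ Icc (h x) (h (r k)) := by
        refine ⟨hx1.le, ?_⟩
        rw [div_le_iff₀ (by positivity)]
        linarith
      obtain ⟨ρ, hρ, hρ2⟩ := hiv hmem
      refine ⟨ρ, lt_of_lt_of_le hx3 hρ.1, hρ.2, ?_⟩
      rw [hρ2]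
      field_simp
    have hinj : Function.Injective (fun x : ℝ => (x, ρ)) := by
      intro x y hxy
      exact (Prod.ext_iff.1 hxy).1
    refine ⟨X.image (fun x => (x, ρ)), ⟨?_, ?_⟩, ?_⟩
    · intro p hp
      rw [Finset.mem_image] at hp
      obtain ⟨x, hx, rfl⟩ := hp
      have h3 := hX x hx
      refine ⟨hρ0, hρr.trans g1, ⟨k, hK3.trans hkK, h3.1, hρr⟩, ?_, ?_⟩
      · simp only [hρh]; linarith [h3.2.1]
      · simp only [hρh]; linarith [h3.2.2]
    · intro p hp q hq hpq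
      rw [Finset.mem_image] at hp hq
      obtain ⟨x, hx, rfl⟩ := hp
      obtain ⟨y, hy, rfl⟩ := hq
      have hxy : x ≠ y := fun h => hpq (by rw [h])
      have h3 := hXsep x hx y hy hxy
      simp only [hρh]
      refine lt_of_lt_of_le ?_ h3
      have : c₁ / (4 * N k) + c₁ / (4 * N k) = c₁ / N k / 2 := by field_simp; ring
      rw [this]
      have : 0 < c₁ / N k := by positivity
      linarith
    · rw [Finset.sum_image (fun x _ y _ h => hinj h)]
      simp only [Finset.sum_const, nsmul_eq_mul, hρh]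
      have h4 : c₂ * N k * ((β - α) / 2) * (c₁ / (4 * N k)) ≤ X.card * (c₁ / (4 * N k)) := by
        have h5 : c₂ * N k * ((β - α) / 2) ≤ X.card := by
          refine le_trans (le_of_eq ?_) hXcard
          ring
        gcongr
      have h5 : c₂ * N k * ((β - α) / 2) * (c₁ / (4 * N k)) = c₁ * c₂ / 8 * (β - α) := by
        field_simp
        ring
      have h6 : 0 < c₁ * c₂ * (β - α) := by positivity
      linarith
  · -- Case 2
    push Not at hcase
    have key : ∀ n : ℕ, ∃ F : Finset (ℝ × ℝ), Fam h 𝒞 r A η n₀ α β F ∧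
        (F.card : ℝ) ≤ c₂ / 8 * (β - α) * N (K + n) / 3 + (K + n : ℕ) ∧
        (c₁ * c₂ / 32 * (β - α) ≤ ∑ p ∈ F, A * h p.2 ∨
          ∑ j ∈ Finset.range n, c₂ / 8 * (β - α) * (N (K + j) * (A * h (r (K + j)))) ≤
            ∑ p ∈ F, A * h p.2) := by
      intro n
      induction n with
      | zero =>
        refine ⟨∅, ⟨by simp, by simp⟩, ?_, Or.inr (by simp)⟩
        have := hNpos (K + 0)
        simp only [Finset.card_empty, Nat.cast_zero]
        positivity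
      | succ n ih =>
        obtain ⟨F, hF, hFc, hF2⟩ := ih
        have hgrow := hS.N_grow (K + n)
        have hNk := hNpos (K + n)
        by_cases hT : c₁ * c₂ / 32 * (β - α) ≤ ∑ p ∈ F, A * h p.2
        · refine ⟨F, hF, ?_, Or.inl hT⟩
          refine hFc.trans ?_
          have hle : N (K + n) ≤ N (K + (n + 1)) := by
            rw [← add_assoc]; linarith
          have h5 : ((K + n : ℕ) : ℝ) ≤ ((K + (n + 1) : ℕ) : ℝ) := by
            exact_mod_cast (by omega)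
          gcongr
        · push Not at hT
          have hF3 := hF2.resolve_left (not_le.2 hT)
          have hge : K ≤ K + n := Nat.le_add_right _ _
          obtain ⟨g1, g2, g3⟩ := hk₂ (K + n) (hK2.trans hge)
          obtain ⟨X, hX, hXsep, hXcard⟩ := hk₀ (K + n) (hK0.trans hge)
          obtain ⟨F', hF', hF'c, hF's⟩ := greedy_step hc₁ hc₂ hNk hA h1 (hK3.trans hge) (hr _) g1
            (hG.pos _ (hr _)) hG.pos (hcase _ hge) g2 X hX hXsep
            (by refine le_trans (le_of_eq ?_) hXcard; ring) (K + n)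
            (hk₁ _ (hK1.trans hge)) F hF hFc hT
          refine ⟨F', hF', ?_, Or.inr ?_⟩
          · refine hF'c.trans ?_
            have h5 : ((K + (n + 1) : ℕ) : ℝ) = ((K + n : ℕ) : ℝ) + 1 := by push_cast; ring
            rw [h5]
            have h6 : N (K + (n + 1)) = N (K + n + 1) := by rw [add_assoc]
            have h7 : c₂ / 8 * (β - α) * (4 * N (K + n)) / 3 ≤ c₂ / 8 * (β - α) * N (K + (n + 1)) / 3 := by
              rw [h6]; gcongr
            linarith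
          · rw [Finset.sum_range_succ]
            linarith
    -- divergence
    have hdiv2 : Tendsto (fun n => ∑ j ∈ Finset.range n, N (K + j) * h (r (K + j))) atTop atTop := by
      have h3 : ¬ Summable (fun j => N (K + j) * h (r (K + j))) := by
        intro hs
        apply hdiv
        have h4 : Summable (fun j => N (j + K) * h (r (j + K))) := by
          simpa [add_comm] using hs
        exact (summable_nat_add_iff K).1 h4
      exact (not_summable_iff_tendsto_nat_atTop_of_nonneg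
        (fun j => (mul_pos (hNpos _) (hG.pos _ (hr _))).le)).1 h3
    obtain ⟨n, hn⟩ := (hdiv2.eventually_ge_atTop (c₁ / (4 * A))).exists
    obtain ⟨F, hF, _, hF2⟩ := key n
    refine ⟨F, hF, ?_⟩
    rcases hF2 with hF2 | hF2
    · exact hF2
    · refine le_trans ?_ hF2
      have h3 : ∑ j ∈ Finset.range n, c₂ / 8 * (β - α) * (N (K + j) * (A * h (r (K + j)))) =
          c₂ / 8 * (β - α) * A * ∑ j ∈ Finset.range n, N (K + j) * h (r (K + j)) := by
        rw [Finset.mul_sum]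
        apply Finset.sum_congr rfl
        intro j _
        ring
      rw [h3]
      calc c₁ * c₂ / 32 * (β - α) = c₂ / 8 * (β - α) * A * (c₁ / (4 * A)) := by
            field_simp
            ring
        _ ≤ _ := by gcongr

end Pool.Agent.Lib.MP_3013d0_nt
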