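import Pool.Agent.Lib.MP_3013d0_nt.Regular

open Set Filter Topology MeasureTheory
open scoped ENNReal

namespace Pool.Agent.Lib.MP_3013d0_nt

/-- Fubini in one coordinate on the unit cube -/
theorem pi_le {B : Type*} [Fintype B] [DecidableEq B] (b₀ : B) (E : Set (B → ℝ))
    (hE : MeasurableSet E) (c : ℝ≥0∞)
    (hc : ∀ z : B → ℝ, volume {t : ℝ | t ∈ Icc (0:ℝ) 1 ∧ Function.update z b₀ t ∈ E} ≤ c) :
    volume.restrict (univ.pi fun _ : B => Icc (0:ℝ) 1) E ≤ c := by
  rw [volume_pi, Measure.restrict_pi_pi, ← lintegral_indicator_one hE]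
  have h1 : ∫⁻ z, E.indicator 1 z ∂(Measure.pi fun _ : B => (volume : Measure ℝ).restrict (Icc (0:ℝ) 1)) ≤
      ∫⁻ _, c ∂(Measure.pi fun _ : B => (volume : Measure ℝ).restrict (Icc (0:ℝ) 1)) := by
    apply lintegral_le_of_lmarginal_le {b₀}
    · exact measurable_one.indicator hE
    · exact measurable_const
    · rw [lmarginal_singleton, lmarginal_singleton]
      intro z
      simp only
      rw [lintegral_const]
      simp only [Measure.restrict_apply MeasurableSet.univ, Set.univ_inter, Real.volume_Icc, sub_zero,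
        ENNReal.ofReal_one, mul_one]
      have h2 : ∀ t, E.indicator (1 : (B → ℝ) → ℝ≥0∞) (Function.update z b₀ t) =
          (Function.update z b₀ ⁻¹' E).indicator 1 t := by
        intro t
        rfl
      simp_rw [h2]
      have hm : MeasurableSet (Function.update z b₀ ⁻¹' E) :=
        (measurable_update z) hE
      rw [lintegral_indicator_one hm, Measure.restrict_apply hm]
      refine le_trans (measure_mono ?_) (hc z)
      rintro t ⟨ht1, ht2⟩
      exact ⟨ht2, ht1⟩
  refine h1.trans ?_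
  rw [lintegral_const, Measure.pi_univ]
  simp

/-- measure of the set where a linear form is close to an integer -/
theorem form_measure {B : Type*} [Fintype B] [DecidableEq B] (n : ℕ) (e : Fin n → B)
    (he : Function.Injective e) (q : Fin n → ℤ) (hq : q ≠ 0) (δ : ℝ) (hδ : 0 < δ) (hδ2 : δ ≤ 1 / 2) :
    volume.restrict (univ.pi fun _ : B => Icc (0:ℝ) 1)
      {z : B → ℝ | ∃ p : ℤ, |∑ i, (q i : ℝ) * z (e i) - p| < δ} ≤ ENNReal.ofReal (6 * δ) := by
  obtain ⟨i₀, hi₀⟩ : ∃ i, q i ≠ 0 := by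
    by_contra hcon
    push Not at hcon
    exact hq (funext hcon)
  apply pi_le (e i₀)
  · apply IsOpen.measurableSet
    have h1 : {z : B → ℝ | ∃ p : ℤ, |∑ i, (q i : ℝ) * z (e i) - p| < δ} =
        ⋃ p : ℤ, {z : B → ℝ | |∑ i, (q i : ℝ) * z (e i) - p| < δ} := by
      ext z; simp
    rw [h1]
    apply isOpen_iUnion
    intro p
    apply isOpen_lt
    · fun_prop
    · fun_prop
  · intro z
    set s : ℝ := ∑ i ∈ Finset.univ.erase i₀, (q i : ℝ) * z (e i) with hs
    have h1 : ∀ t, ∑ i, (q i : ℝ) * (Function.update z (e i₀) t) (e i) = q i₀ * t + s := by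
      intro t
      rw [← Finset.add_sum_erase _ _ (Finset.mem_univ i₀), Function.update_self]
      congr 1
      apply Finset.sum_congr rfl
      intro i hi
      rw [Function.update_of_ne]
      intro h
      exact (Finset.ne_of_mem_erase hi) (he h)
    have hqa : (1:ℝ) ≤ |(q i₀ : ℝ)| := by
      have : 1 ≤ |q i₀| := Int.one_le_abs hi₀
      exact_mod_cast this
    -- reduce to a positive coefficient
    have h2 : ∀ a s' : ℝ, 1 ≤ a → volume {t : ℝ | t ∈ Icc (0:ℝ) 1 ∧ ∃ p : ℤ, |a * t + s' - p| < δ} ≤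
        ENNReal.ofReal (6 * δ) := by
      intro a s' ha
      refine (vol_lin 0 1 a s' δ zero_le_one (by linarith) hδ hδ2).trans ?_
      apply ENNReal.ofReal_le_ofReal
      have : 4 * δ / a ≤ 4 * δ := div_le_self (by positivity) ha
      linarith
    rcases le_total 0 (q i₀ : ℝ) with hpos | hneg
    · rw [abs_of_nonneg hpos] at hqa
      refine le_trans (measure_mono ?_) (h2 (q i₀) s hqa)
      rintro t ⟨ht, p, hp⟩
      refine ⟨ht, p, ?_⟩
      rw [h1] at hp
      exact hp
    · rw [abs_of_nonpos hneg] at hqa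
      refine le_trans (measure_mono ?_) (h2 (-q i₀) (-s) hqa)
      rintro t ⟨ht, p, hp⟩
      refine ⟨ht, -p, ?_⟩
      rw [h1, ← abs_neg] at hp
      refine lt_of_eq_of_lt ?_ hp
      congr 1
      push_cast
      ring

/-- almost every point satisfies the Diophantine condition -/
theorem ae_D {B : Type*} [Fintype B] [DecidableEq B] (n : ℕ) (e : Fin n → B)
    (he : Function.Injective e) :
    ∀ᵐ z ∂((volume : Measure (B → ℝ)).restrict (univ.pi fun _ : B => Icc (0:ℝ) 1)),
      ∃ K₀ : ℕ, ∀ k ≥ K₀, ∀ q : Fin n → ℤ, q ≠ 0 → (∀ i, |q i| < 2 ^ k) → ∀ p : ℤ,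
      1 / (RR n k : ℝ) ≤ |∑ i, (q i : ℝ) * z (e i) - p| := by
  classical
  set F : ℕ → Finset (Fin n → ℤ) := fun k =>
    (Fintype.piFinset (fun _ : Fin n => Finset.Ioo (-((2 ^ k : ℕ):ℤ)) ((2 ^ k : ℕ) : ℤ))).filter
      (fun q => q ≠ 0) with hF
  set s : ℕ → Set (B → ℝ) := fun k =>
    ⋃ q ∈ F k, {z : B → ℝ | ∃ p : ℤ, |∑ i, (q i : ℝ) * z (e i) - p| < 1 / (RR n k : ℝ)} with hs
  have hFcard : ∀ k, ((F k).card : ℝ) ≤ (2 * (2:ℝ) ^ k) ^ n := by
    intro k
    have h0 : ((F k).card : ℝ) ≤ ((Fintype.piFinset (fun _ : Fin n =>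
        Finset.Ioo (-((2 ^ k : ℕ):ℤ)) ((2 ^ k : ℕ) : ℤ))).card : ℝ) := by
      exact_mod_cast Finset.card_le_card (Finset.filter_subset _ _)
    refine h0.trans ?_
    rw [Fintype.card_piFinset]
    simp only [Finset.prod_const, Finset.card_univ, Fintype.card_fin, Int.card_Ioo]
    rw [Nat.cast_pow]
    apply pow_le_pow_left₀ (by positivity)
    have h2 : (((2 ^ k : ℕ):ℤ) - -((2 ^ k : ℕ):ℤ) - 1).toNat ≤ 2 * 2 ^ k := by omega
    have h3 : ((((2 ^ k : ℕ):ℤ) - -((2 ^ k : ℕ):ℤ) - 1).toNat : ℝ) ≤ ((2 * 2 ^ k : ℕ) : ℝ) := by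
      exact_mod_cast h2
    refine h3.trans (le_of_eq ?_)
    push_cast
    ring
  have hbound : ∀ k, (volume : Measure (B → ℝ)).restrict (univ.pi fun _ : B => Icc (0:ℝ) 1) (s k) ≤
      ENNReal.ofReal ((1 / 2) ^ k) := by
    intro k
    have hR : (2:ℝ) ≤ RR n k := by
      have : 2 ≤ RR n k := by
        unfold RR
        calc 2 = 2 ^ 1 * 1 := rfl
          _ ≤ 2 ^ (n + 4) * (2 ^ k) ^ (n + 1) :=
              Nat.mul_le_mul (Nat.pow_le_pow_right (by norm_num) (by omega)) (Nat.one_le_pow _ _ (by positivity))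
      exact_mod_cast this
    calc (volume : Measure (B → ℝ)).restrict (univ.pi fun _ : B => Icc (0:ℝ) 1) (s k)
        ≤ ∑ q ∈ F k, (volume : Measure (B → ℝ)).restrict (univ.pi fun _ : B => Icc (0:ℝ) 1)
            {z : B → ℝ | ∃ p : ℤ, |∑ i, (q i : ℝ) * z (e i) - p| < 1 / (RR n k : ℝ)} :=
          measure_biUnion_finset_le _ _
      _ ≤ ∑ q ∈ F k, ENNReal.ofReal (6 * (1 / (RR n k : ℝ))) := by
          apply Finset.sum_le_sum
          intro q hq
          exact form_measure n e he q (Finset.mem_filter.1 hq).2 _ (by positivity)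
            (one_div_le_one_div_of_le (by norm_num) hR)
      _ = ENNReal.ofReal ((F k).card * (6 * (1 / (RR n k : ℝ)))) := by
          rw [Finset.sum_const, nsmul_eq_mul, ENNReal.ofReal_mul (Nat.cast_nonneg _),
            ENNReal.ofReal_natCast]
      _ ≤ ENNReal.ofReal ((1 / 2) ^ k) := by
          apply ENNReal.ofReal_le_ofReal
          calc ((F k).card : ℝ) * (6 * (1 / (RR n k : ℝ)))
              ≤ (2 * (2:ℝ) ^ k) ^ n * (6 * (1 / (RR n k : ℝ))) := by
                have := hFcard k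
                gcongr
            _ = 6 / 16 * (1 / 2) ^ k := by
                unfold RR
                push_cast
                have h3 : (2:ℝ) ^ (n + 4) = 2 ^ n * 16 := by ring
                have h4 : ((2:ℝ) ^ k) ^ (n + 1) = (2 ^ k) ^ n * 2 ^ k := by ring
                have h8 : ((1:ℝ) / 2) ^ k = 1 / 2 ^ k := by rw [div_pow, one_pow]
                rw [h3, h4, mul_pow, h8]
                have h5 : ((2:ℝ) ^ k) ^ n ≠ 0 := by positivity
                have h6 : (2:ℝ) ^ k ≠ 0 := by positivity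
                have h7 : (2:ℝ) ^ n ≠ 0 := by positivity
                generalize ((2:ℝ) ^ k) ^ n = A at *
                generalize (2:ℝ) ^ k = B at *
                generalize (2:ℝ) ^ n = D at *
                field_simp
            _ ≤ 1 * (1 / 2) ^ k := by gcongr; norm_num
            _ = (1 / 2) ^ k := one_mul _
  have hsum : (∑' k, (volume : Measure (B → ℝ)).restrict (univ.pi fun _ : B => Icc (0:ℝ) 1) (s k)) ≠ ∞ := by
    refine ne_top_of_le_ne_top ?_ (ENNReal.tsum_le_tsum hbound)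
    have hsm : Summable (fun k : ℕ => ((1:ℝ) / 2) ^ k) := summable_geometric_two
    exact (Summable.tsum_ofReal_ne_top hsm)
  filter_upwards [ae_eventually_notMem hsum] with z hz
  obtain ⟨K₀, hK₀⟩ := eventually_atTop.1 hz
  refine ⟨K₀, fun k hk q hq hqk p => ?_⟩
  by_contra hcon
  push Not at hcon
  apply hK₀ k hk
  simp only [hs, Set.mem_iUnion]
  refine ⟨q, ?_, p, hcon⟩
  rw [hF]
  simp only [Finset.mem_filter, Fintype.mem_piFinset, Finset.mem_Ioo]
  refine ⟨fun i => ?_, hq⟩
  have := hqk i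
  rw [abs_lt] at this
  push_cast
  exact this

end Pool.Agent.Lib.MP_3013d0_nt
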