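import Mathlib

open Set Filter Topology MeasureTheory
open scoped ENNReal

namespace Pool.Agent.Lib.MP_3013d0_nt

/-- the point with distinguished coordinate `t` and remaining coordinates `z` -/
def ins {I : Type*} [DecidableEq I] (j₀ : I) (t : ℝ) (z : {j // j ≠ j₀} → ℝ) : I → ℝ :=
  fun j => if h : j = j₀ then t else z ⟨j, h⟩

/-- Slicing: lower bound of a generalised Hausdorff measure by cover estimates on lines. -/
theorem slicing {I : Type*} [Fintype I] [DecidableEq I] (j₀ : I) (E : Set (EuclideanSpace ℝ I))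
    (f h : ℝ → ℝ) (hf0 : Tendsto f (𝓝[>] 0) (𝓝 0)) (hh : ∀ x > 0, 0 ≤ h x)
    (hfh : ∀ x > 0, f x = x ^ (Fintype.card {j // j ≠ j₀}) * h x)
    (hmain : ∀ M > (0:ℝ), ∃ ρ > 0, ∀ᵐ z ∂((volume : Measure ({j // j ≠ j₀} → ℝ)).restrict
      (univ.pi fun _ => Icc (0:ℝ) 1)), ∀ (T : Set ℕ) (y δ : ℕ → ℝ), (∀ i, 0 < δ i) →
      (∀ i, δ i ≤ ρ) → {t : ℝ | WithLp.toLp 2 (ins j₀ t z) ∈ E} ⊆ ⋃ i ∈ T, Icc (y i) (y i + δ i) →
      ∃ T' : Finset ℕ, (T' : Set ℕ) ⊆ T ∧ M ≤ ∑ i ∈ T', h (δ i)) :
    Measure.mkMetric (fun r => if r = 0 then 0 else ENNReal.ofReal (f r.toReal)) E = ⊤ := by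
  classical
  rw [Measure.mkMetric_apply]
  refine ENNReal.eq_top_of_forall_nnreal_le (fun M => ?_)
  obtain ⟨ρ, hρ, hz⟩ := hmain (M + 2) (by positivity)
  refine le_iSup₂_of_le (ENNReal.ofReal ρ) (ENNReal.ofReal_pos.2 hρ) ?_
  refine le_iInf fun t => le_iInf fun ht => le_iInf fun hd => ?_
  set D : ℕ → ℝ := fun n => (Metric.ediam (t n)).toReal with hD
  have hdtop : ∀ n, Metric.ediam (t n) ≠ ⊤ := fun n =>
    ne_top_of_le_ne_top ENNReal.ofReal_ne_top (hd n)
  have hDρ : ∀ n, D n ≤ ρ := fun n => by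
    have := ENNReal.toReal_mono ENNReal.ofReal_ne_top (hd n)
    rwa [ENNReal.toReal_ofReal hρ.le] at this
  have hD0 : ∀ n, 0 ≤ D n := fun n => ENNReal.toReal_nonneg
  -- tiny radii
  have htiny : ∀ n : ℕ, ∃ η > 0, η ≤ ρ ∧ f η ≤ (1 / 2) ^ n := by
    intro n
    have e1 : ∀ᶠ x in 𝓝[>] (0:ℝ), f x < (1 / 2) ^ n :=
      hf0.eventually (gt_mem_nhds (by positivity))
    have e2 : ∀ᶠ x in 𝓝[>] (0:ℝ), x < ρ := nhdsWithin_le_nhds (gt_mem_nhds hρ)
    have e3 : ∀ᶠ x in 𝓝[>] (0:ℝ), 0 < x := self_mem_nhdsWithin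
    obtain ⟨x, h1, h2, h3⟩ := (e1.and (e2.and e3)).exists
    exact ⟨x, h3, h2.le, h1.le⟩
  choose η hη0 hηρ hηf using htiny
  set δ : ℕ → ℝ := fun n => if D n = 0 then η n else D n with hδ
  have hδpos : ∀ n, 0 < δ n := by
    intro n
    simp only [hδ]
    split_ifs with h0
    · exact hη0 n
    · exact lt_of_le_of_ne (hD0 n) (Ne.symm h0)
  have hδρ : ∀ n, δ n ≤ ρ := by
    intro n
    simp only [hδ]
    split_ifs with h0
    · exact hηρ n
    · exact hDρ n
  have hDδ : ∀ n, D n ≤ δ n := by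
    intro n
    simp only [hδ]
    split_ifs with h0
    · rw [h0]; exact (hη0 n).le
    · exact le_rfl
  -- corners
  set c : ℕ → I → ℝ := fun n j => sInf ((fun x : EuclideanSpace ℝ I => x j) '' t n) with hc
  have hcoord : ∀ n, ∀ x ∈ t n, ∀ j, c n j ≤ x j ∧ x j ≤ c n j + δ n := by
    intro n x hx j
    have hdiff : ∀ x' ∈ t n, |x j - x' j| ≤ D n := by
      intro x' hx'
      have h1 : dist x x' ≤ D n := by
        have := Metric.edist_le_ediam_of_mem hx hx'
        rw [edist_dist] at this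
        have h2 := ENNReal.toReal_mono (hdtop n) this
        rwa [ENNReal.toReal_ofReal dist_nonneg] at h2
      rw [dist_eq_norm] at h1
      have h2 := PiLp.norm_apply_le (x - x') j
      rw [PiLp.sub_apply, Real.norm_eq_abs] at h2
      exact h2.trans h1
    have hbdd : BddBelow ((fun x : EuclideanSpace ℝ I => x j) '' t n) := by
      refine ⟨x j - D n, ?_⟩
      rintro _ ⟨x', hx', rfl⟩
      have := hdiff x' hx'
      rw [abs_le] at this
      simp only
      linarith
    constructor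
    · exact csInf_le hbdd (Set.mem_image_of_mem _ hx)
    · have h1 : x j - D n ≤ c n j := by
        refine le_csInf (Set.Nonempty.image _ ⟨x, hx⟩) ?_
        rintro _ ⟨x', hx', rfl⟩
        have := hdiff x' hx'
        rw [abs_le] at this
        simp only
        linarith
      linarith [hDδ n]
  set C : ℕ → Set ({j // j ≠ j₀} → ℝ) := fun n =>
    univ.pi (fun j => Icc (c n j.1) (c n j.1 + δ n)) with hC
  have hCm : ∀ n, MeasurableSet (C n) := fun n =>
    MeasurableSet.univ_pi fun _ => measurableSet_Icc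
  set g : ℕ → ({j // j ≠ j₀} → ℝ) → ℝ≥0∞ := fun n z =>
    if (t n).Nonempty then (C n).indicator (fun _ => ENNReal.ofReal (h (δ n))) z else 0 with hg
  have hgm : ∀ n, Measurable (g n) := by
    intro n
    simp only [hg]
    split_ifs
    · exact measurable_const.indicator (hCm n)
    · exact measurable_const
  set μ : Measure ({j // j ≠ j₀} → ℝ) := (volume : Measure ({j // j ≠ j₀} → ℝ)).restrict
      (univ.pi fun _ => Icc (0:ℝ) 1) with hμ
  have hμuniv : μ univ = 1 := by
    rw [hμ, volume_pi, Measure.restrict_pi_pi, Measure.pi_univ]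
    simp
  have hae : ∀ᵐ z ∂μ, ENNReal.ofReal (M + 2) ≤ ∑' n, g n z := by
    filter_upwards [hz] with z hz
    obtain ⟨T', hT', hM⟩ := hz {n | (t n).Nonempty ∧ z ∈ C n} (fun n => c n j₀) δ hδpos hδρ (by
      intro s hs
      have h1 := ht hs
      rw [Set.mem_iUnion] at h1
      obtain ⟨n, hn⟩ := h1
      have h2 := hcoord n _ hn
      simp only [Set.mem_iUnion]
      refine ⟨n, ⟨⟨_, hn⟩, ?_⟩, ?_⟩
      · simp only [hC, Set.mem_univ_pi]
        intro j
        have h3 := h2 j.1
        simp only [ins, dif_neg j.2] at h3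
        exact h3
      · have h3 := h2 j₀
        simpa [ins] using h3)
    calc ENNReal.ofReal (M + 2) ≤ ENNReal.ofReal (∑ i ∈ T', h (δ i)) := ENNReal.ofReal_le_ofReal hM
      _ = ∑ i ∈ T', ENNReal.ofReal (h (δ i)) :=
          ENNReal.ofReal_sum_of_nonneg fun i _ => hh _ (hδpos i)
      _ = ∑ i ∈ T', g i z := by
          apply Finset.sum_congr rfl
          intro i hi
          have h1 := hT' hi
          simp only [Set.mem_ofPred_eq] at h1
          simp only [hg, if_pos h1.1, Set.indicator_of_mem h1.2]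
      _ ≤ ∑' n, g n z := ENNReal.sum_le_tsum _
  have hint : ENNReal.ofReal (M + 2) ≤ ∑' n, ∫⁻ z, g n z ∂μ := by
    rw [← lintegral_tsum (fun n => (hgm n).aemeasurable)]
    calc ENNReal.ofReal (M + 2) = ∫⁻ _, ENNReal.ofReal (M + 2) ∂μ := by
          rw [lintegral_const, hμuniv, mul_one]
      _ ≤ ∫⁻ z, ∑' n, g n z ∂μ := lintegral_mono_ae hae
  have hterm : ∀ n, ∫⁻ z, g n z ∂μ ≤ (⨆ _ : (t n).Nonempty,
      (if Metric.ediam (t n) = 0 then 0 else ENNReal.ofReal (f (Metric.ediam (t n)).toReal))) +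
      ENNReal.ofReal ((1 / 2) ^ n) := by
    intro n
    by_cases hne : (t n).Nonempty
    · simp only [hg, if_pos hne, ciSup_pos hne]
      rw [lintegral_indicator_const (hCm n)]
      have h1 : μ (C n) ≤ ENNReal.ofReal (δ n ^ (Fintype.card {j // j ≠ j₀})) := by
        calc μ (C n) ≤ volume (C n) := Measure.restrict_apply_le _ _
          _ = ∏ j : {j // j ≠ j₀}, volume (Icc (c n j.1) (c n j.1 + δ n)) := volume_pi_pi _
          _ = ∏ j : {j // j ≠ j₀}, ENNReal.ofReal (δ n) := by
              apply Finset.prod_congr rfl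
              intro j _
              rw [Real.volume_Icc]
              congr 1
              ring
          _ = ENNReal.ofReal (δ n ^ (Fintype.card {j // j ≠ j₀})) := by
              rw [Finset.prod_const, Finset.card_univ, ENNReal.ofReal_pow (hδpos n).le]
      have h2 : ENNReal.ofReal (h (δ n)) * μ (C n) ≤ ENNReal.ofReal (f (δ n)) := by
        calc ENNReal.ofReal (h (δ n)) * μ (C n)
            ≤ ENNReal.ofReal (h (δ n)) * ENNReal.ofReal (δ n ^ (Fintype.card {j // j ≠ j₀})) := by
              gcongr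
          _ = ENNReal.ofReal (f (δ n)) := by
              rw [← ENNReal.ofReal_mul (hh _ (hδpos n)), hfh _ (hδpos n), mul_comm]
      refine h2.trans ?_
      by_cases h0 : D n = 0
      · have h3 : δ n = η n := by simp only [hδ, if_pos h0]
        rw [h3]
        exact (ENNReal.ofReal_le_ofReal (hηf n)).trans le_add_self
      · have h3 : δ n = D n := by simp only [hδ, if_neg h0]
        have h4 : Metric.ediam (t n) ≠ 0 := by
          intro h5
          apply h0
          simp only [hD, h5, ENNReal.toReal_zero]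
        rw [h3, if_neg h4]
        exact le_self_add
    · simp only [hg, if_neg hne]
      simp
  have htot : ENNReal.ofReal (M + 2) ≤ (∑' n, ⨆ _ : (t n).Nonempty,
      (if Metric.ediam (t n) = 0 then 0 else ENNReal.ofReal (f (Metric.ediam (t n)).toReal))) + 2 := by
    refine hint.trans ((ENNReal.tsum_le_tsum hterm).trans ?_)
    rw [ENNReal.tsum_add]
    gcongr
    rw [← ENNReal.ofReal_tsum_of_nonneg (fun n => by positivity) summable_geometric_two,
      tsum_geometric_two]
    simp
  rw [ENNReal.ofReal_add (by positivity) (by norm_num)] at htot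
  have h2 : ENNReal.ofReal 2 = 2 := by simp
  rw [h2, ENNReal.ofReal_coe_nnreal] at htot
  exact (ENNReal.add_le_add_iff_right (by simp)).1 htot

end Pool.Agent.Lib.MP_3013d0_nt
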