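import Pool.Agent.Lib.MP_3013d0_nt.Cantor
import Pool.Agent.Lib.MP_3013d0_nt.Meas
import Pool.Agent.Lib.MP_3013d0_nt.Slice
import Pool.Agent.Lib.MP_3013d0_nt.Div

open Set Filter Topology MeasureTheory
open scoped ENNReal

namespace Pool.Agent.Lib.MP_3013d0_nt

/-- distance to the nearest integer -/
noncomputable def nint (t : ℝ) : ℝ := |t - round t|

theorem nint_nonneg (t : ℝ) : 0 ≤ nint t := abs_nonneg _

theorem nint_le_one (t : ℝ) : nint t ≤ 1 := by
  unfold nint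
  have := abs_sub_round t
  linarith

theorem nint_le (t : ℝ) (p : ℤ) : nint t ≤ |t - p| := round_le t p

/-- the set `W` for `m = n + 1`, `d = e + 1` -/
def WW (n e : ℕ) (θ : Fin (e + 1) → ℝ) (ψ : ℕ → ℝ) :
    Set (EuclideanSpace ℝ (Fin (e + 1) × Fin (n + 1))) :=
  {X | (∀ p, X p ∈ Icc (0:ℝ) 1) ∧ {q : Fin (n + 1) → ℤ | q ≠ 0 ∧
    ∏ i, nint (∑ j, (q j : ℝ) * X (i, j) - θ i) < ψ (nrm q)}.Infinite}

/-- The slices of `W` contain limsup sets of regular systems. -/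
theorem slice_sub (n e : ℕ) (θ : Fin (e + 1) → ℝ) (ψ : ℕ → ℝ) (hψ : Antitone ψ)
    (hψpos : ∀ n, 0 < ψ n)
    (z : {j : Fin (e + 1) × Fin (n + 1) // j ≠ (0, 0)} → ℝ) (hz : ∀ j, z j ∈ Icc (0:ℝ) 1) :
    Lim (Cen n (fun i => z ⟨(0, i.succ), fun h => Fin.succ_ne_zero i (Prod.ext_iff.1 h).2⟩) (θ 0))
      (fun k => ψ (2 ^ (k + n + 7)) / (2 * 2 ^ (k + n + 7))) ⊆
    {t : ℝ | WithLp.toLp 2 (ins ((0, 0) : Fin (e + 1) × Fin (n + 1)) t z) ∈ WW n e θ ψ} := by
  rintro t ⟨htI, hlim⟩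
  refine ⟨?_, ?_⟩
  · intro p
    simp only [ins]
    split_ifs with h
    · exact htI
    · exact hz _
  · -- every `n₀` gives a vector with large first coordinate
    have key : ∀ n₀ : ℕ, ∃ q : Fin (n + 1) → ℤ, (n₀ : ℤ) < q 0 ∧ q ≠ 0 ∧
        ∏ i, nint (∑ j, (q j : ℝ) * (WithLp.toLp 2 (ins ((0, 0) : Fin (e + 1) × Fin (n + 1)) t z) :
          EuclideanSpace ℝ (Fin (e + 1) × Fin (n + 1))) (i, j) - θ i) < ψ (nrm q) := by
      intro n₀
      obtain ⟨k, hk, c, ⟨a, q, p, ha1, ha2, hq, hc⟩, htc⟩ := hlim n₀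
      set b : ℕ := 2 ^ (k + n + 7) with hb
      have hbJ : ((2:ℤ) * (2 ^ (n + 6) * 2 ^ k)) = (b : ℤ) := by
        rw [hb]; push_cast; ring
      rw [hbJ] at ha2 hq
      have hapos : 0 < a := lt_of_lt_of_le (by positivity) ha1
      have hq0 : (Fin.cons a q : Fin (n + 1) → ℤ) ≠ 0 := by
        intro h
        have := congrFun h 0
        simp only [Fin.cons_zero, Pi.zero_apply] at this
        omega
      refine ⟨Fin.cons a q, ?_, hq0, ?_⟩
      · simp only [Fin.cons_zero]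
        have h1 : n₀ < 2 ^ k := lt_of_le_of_lt hk Nat.lt_two_pow_self
        have h2 : (n₀ : ℤ) < 2 ^ k := by exact_mod_cast h1
        have h3 : (2:ℤ) ^ k ≤ 2 ^ (n + 6) * 2 ^ k := by
          have : (1:ℤ) ≤ 2 ^ (n + 6) := one_le_pow₀ (by norm_num)
          have h4 : (0:ℤ) ≤ 2 ^ k := by positivity
          nlinarith
        linarith
      · have hnrm : nrm (Fin.cons a q : Fin (n + 1) → ℤ) ≤ b := by
          unfold nrm
          apply Finset.sup_le
          intro j _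
          refine Fin.cases ?_ (fun i => ?_) j
          · simp only [Fin.cons_zero]; omega
          · simp only [Fin.cons_succ]
            have := hq i
            omega
        have hfirst : nint (∑ j, ((Fin.cons a q : Fin (n + 1) → ℤ) j : ℝ) *
            (WithLp.toLp 2 (ins ((0, 0) : Fin (e + 1) × Fin (n + 1)) t z) :
            EuclideanSpace ℝ (Fin (e + 1) × Fin (n + 1))) (0, j) - θ 0) < ψ b := by
          refine lt_of_le_of_lt (nint_le _ p) ?_
          rw [Fin.sum_univ_succ]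
          simp only [Fin.cons_zero, Fin.cons_succ, ins, dif_pos]
          have h1 : ∀ i : Fin n, (q i : ℝ) * (if h : ((0 : Fin (e + 1)), i.succ) = (0, 0) then t else
              z ⟨(0, i.succ), h⟩) = (q i : ℝ) * z ⟨(0, i.succ), fun h => Fin.succ_ne_zero i (Prod.ext_iff.1 h).2⟩ := by
            intro i
            rw [dif_neg]
          rw [Finset.sum_congr rfl fun i _ => h1 i]
          have h2 : (a : ℝ) * t + ∑ i, (q i : ℝ) * z ⟨(0, i.succ), fun h => Fin.succ_ne_zero i (Prod.ext_iff.1 h).2⟩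
              - θ 0 - p = a * (t - c) := by
            rw [← hc]; ring
          rw [h2, abs_mul]
          have ha' : |(a : ℝ)| ≤ b := by
            rw [abs_of_pos (by exact_mod_cast hapos)]
            exact_mod_cast ha2
          have hbpos : (0:ℝ) < b := by rw [hb]; positivity
          have hψb := hψpos b
          have hb2 : (2:ℝ) ^ (k + n + 7) = b := by rw [hb]; push_cast; rfl
          simp only [hb2] at htc
          calc |(a : ℝ)| * |t - c| ≤ b * (ψ b / (2 * b)) := by gcongr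
            _ = ψ b / 2 := by field_simp
            _ < ψ b := by linarith
        rw [Fin.prod_univ_succ]
        have hrest : ∏ i : Fin e, nint (∑ j, ((Fin.cons a q : Fin (n + 1) → ℤ) j : ℝ) *
            (WithLp.toLp 2 (ins ((0, 0) : Fin (e + 1) × Fin (n + 1)) t z) :
            EuclideanSpace ℝ (Fin (e + 1) × Fin (n + 1))) (i.succ, j) - θ i.succ) ≤ 1 :=
          Finset.prod_le_one (fun _ _ => nint_nonneg _) (fun _ _ => nint_le_one _)
        have hmul : ∀ A B : ℝ, 0 ≤ A → B ≤ 1 → A * B ≤ A := fun A B hA hB => by nlinarith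
        exact lt_of_le_of_lt (hmul _ _ (nint_nonneg _) hrest) (lt_of_lt_of_le hfirst (hψ hnrm))
    intro hfin
    have himg := hfin.image (fun q : Fin (n + 1) → ℤ => q 0)
    obtain ⟨M, hM⟩ := himg.bddAbove
    obtain ⟨q, hq1, hq2, hq3⟩ := key M.toNat
    have := hM (Set.mem_image_of_mem (fun q : Fin (n + 1) → ℤ => q 0) ⟨hq2, hq3⟩)
    omega

/-- Main theorem with `m = n + 1`, `d = e + 1`. -/
theorem main (n e : ℕ) (θ : Fin (e + 1) → ℝ) (ψ : ℕ → ℝ) (hψ : Antitone ψ)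
    (hψpos : ∀ n, 0 < ψ n) (f h : ℝ → ℝ) (C₀ : ℝ) (hG : Gauge h C₀)
    (hf0 : Tendsto f (𝓝[>] 0) (𝓝 0))
    (hfh : ∀ x > 0, f x = x ^ (Fintype.card {j : Fin (e + 1) × Fin (n + 1) // j ≠ (0, 0)}) * h x)
    (hdiv : ∑' q : {q : Fin (n + 1) → ℤ // q ≠ 0},
      ENNReal.ofReal ((nrm q.1 : ℝ) * h (ψ (nrm q.1) / nrm q.1)) = ⊤) :
    Measure.mkMetric (fun r => if r = 0 then 0 else ENNReal.ofReal (f r.toReal)) (WW n e θ ψ) = ⊤ := by
  classical
  apply slicing (0, 0) (WW n e θ ψ) f h hf0 (fun x hx => (hG.pos x hx).le) hfh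
  intro M hM
  obtain ⟨ρ, hρ, hcantor⟩ := cantor hG (1 / 2 ^ (n + 4)) (2 ^ (n + 1)) M hM
  refine ⟨ρ, hρ, ?_⟩
  have hae := ae_D (B := {j : Fin (e + 1) × Fin (n + 1) // j ≠ (0, 0)}) n
    (fun i => ⟨(0, i.succ), fun h => Fin.succ_ne_zero i (Prod.ext_iff.1 h).2⟩) (by
      intro i j hij
      simp only [Subtype.mk.injEq, Prod.mk.injEq, Fin.succ_inj, true_and] at hij
      exact hij)
  have hmem : ∀ᵐ z ∂((volume : Measure ({j : Fin (e + 1) × Fin (n + 1) // j ≠ (0, 0)} → ℝ)).restrict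
      (univ.pi fun _ => Icc (0:ℝ) 1)), z ∈ (univ.pi fun _ => Icc (0:ℝ) 1 :
        Set ({j : Fin (e + 1) × Fin (n + 1) // j ≠ (0, 0)} → ℝ)) :=
    ae_restrict_mem (MeasurableSet.univ_pi fun _ => measurableSet_Icc)
  filter_upwards [hae, hmem] with z hz1 hz2
  obtain ⟨K₀, hK₀⟩ := hz1
  have hz3 : ∀ j, z j ∈ Icc (0:ℝ) 1 := fun j => hz2 j (mem_univ j)
  intro T y δ hδ hδρ hcov
  have hreg := regular n (fun i => z ⟨(0, i.succ), fun h => Fin.succ_ne_zero i (Prod.ext_iff.1 h).2⟩)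
    (θ 0) K₀ hK₀
  refine hcantor _ _ hreg (fun k => ψ (2 ^ (k + n + 7)) / (2 * 2 ^ (k + n + 7))) ?_ ?_ ?_ T y δ hδ hδρ
    ((slice_sub n e θ ψ hψ hψpos z hz3).trans hcov)
  · intro k
    exact div_pos (hψpos _) (by positivity)
  · have a1 : Tendsto (fun k : ℕ => ψ 0 * ((1:ℝ) / 2) ^ k) atTop (𝓝 (ψ 0 * 0)) :=
      (tendsto_pow_atTop_nhds_zero_of_lt_one (by norm_num) (by norm_num)).const_mul _
    rw [mul_zero] at a1
    refine squeeze_zero (fun k => (div_pos (hψpos _) (by positivity)).le) (fun k => ?_) a1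
    have h1 : ψ (2 ^ (k + n + 7)) ≤ ψ 0 := hψ (Nat.zero_le _)
    have h2 : (2:ℝ) ^ k ≤ 2 * 2 ^ (k + n + 7) := by
      have h3 : (2:ℝ) ^ k ≤ 2 ^ (k + n + 7) := pow_le_pow_right₀ (by norm_num) (by omega)
      have h4 : (0:ℝ) < 2 ^ (k + n + 7) := by positivity
      linarith
    calc ψ (2 ^ (k + n + 7)) / (2 * 2 ^ (k + n + 7)) ≤ ψ 0 / 2 ^ k :=
          div_le_div₀ (hψpos _).le h1 (by positivity) h2
      _ = ψ 0 * (1 / 2) ^ k := by rw [div_pow, one_pow]; ring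
  · exact div_dyadic n hG ψ hψpos hψ hdiv

end Pool.Agent.Lib.MP_3013d0_nt
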