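import Pool.Agent.Lib.MP_3013d0_nt.Step

open Set Filter Topology MeasureTheory
open scoped Pointwise

namespace Pool.Agent.Lib.MP_3013d0_nt

/-- measure of the set of `t` for which `a t + s` is close to an integer -/
theorem vol_lin (α β a s δ : ℝ) (hαβ : α ≤ β) (ha : 0 < a) (hδ : 0 < δ) (hδ2 : δ ≤ 1 / 2) :
    volume {t : ℝ | t ∈ Icc α β ∧ ∃ p : ℤ, |a * t + s - p| < δ} ≤
      ENNReal.ofReal (2 * δ * (β - α) + 4 * δ / a) := by
  set F := Finset.Icc ⌈a * α + s - δ⌉ ⌊a * β + s + δ⌋ with hF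
  have hsub : {t : ℝ | t ∈ Icc α β ∧ ∃ p : ℤ, |a * t + s - p| < δ} ⊆
      ⋃ p ∈ F, Icc (((p : ℝ) - s - δ) / a) (((p : ℝ) - s + δ) / a) := by
    rintro t ⟨ht, p, hp⟩
    simp only [Set.mem_iUnion]
    rw [abs_lt] at hp
    have h1 : a * α ≤ a * t := by gcongr; exact ht.1
    have h2 : a * t ≤ a * β := by gcongr; exact ht.2
    refine ⟨p, ?_, ?_, ?_⟩
    · rw [hF, Finset.mem_Icc, Int.ceil_le, Int.le_floor]
      constructor <;> linarith
    · rw [div_le_iff₀ ha]; linarith
    · rw [le_div_iff₀ ha]; linarith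
  have hcard : (F.card : ℝ) ≤ a * (β - α) + 2 := by
    rw [hF, Int.card_Icc]
    have h1 : ((⌊a * β + s + δ⌋ + 1 - ⌈a * α + s - δ⌉).toNat : ℤ) ≤
        max (⌊a * β + s + δ⌋ + 1 - ⌈a * α + s - δ⌉) 0 := by
      rw [Int.toNat_eq_max]
    have h2 : (((⌊a * β + s + δ⌋ + 1 - ⌈a * α + s - δ⌉).toNat : ℤ) : ℝ) ≤
        ((max (⌊a * β + s + δ⌋ + 1 - ⌈a * α + s - δ⌉) 0 : ℤ) : ℝ) := by exact_mod_cast h1
    rw [Int.cast_natCast] at h2
    refine h2.trans ?_
    have h3 := Int.floor_le (a * β + s + δ)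
    have h4 := Int.le_ceil (a * α + s - δ)
    push_cast
    apply max_le
    · have : a * (β - α) = a * β - a * α := by ring
      linarith
    · have : 0 ≤ a * (β - α) := mul_nonneg ha.le (by linarith)
      linarith
  calc volume {t : ℝ | t ∈ Icc α β ∧ ∃ p : ℤ, |a * t + s - p| < δ}
      ≤ volume (⋃ p ∈ F, Icc (((p : ℝ) - s - δ) / a) (((p : ℝ) - s + δ) / a)) := measure_mono hsub
    _ ≤ ∑ p ∈ F, volume (Icc (((p : ℝ) - s - δ) / a) (((p : ℝ) - s + δ) / a)) :=
        measure_biUnion_finset_le _ _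
    _ = ∑ p ∈ F, ENNReal.ofReal (2 * δ / a) := by
        apply Finset.sum_congr rfl
        intro p _
        rw [Real.volume_Icc]
        congr 1
        ring
    _ = ENNReal.ofReal (F.card * (2 * δ / a)) := by
        rw [Finset.sum_const, nsmul_eq_mul, ENNReal.ofReal_mul (Nat.cast_nonneg _),
          ENNReal.ofReal_natCast]
    _ ≤ ENNReal.ofReal (2 * δ * (β - α) + 4 * δ / a) := by
        apply ENNReal.ofReal_le_ofReal
        calc (F.card : ℝ) * (2 * δ / a) ≤ (a * (β - α) + 2) * (2 * δ / a) := by gcongr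
          _ = 2 * δ * (β - α) + 4 * δ / a := by field_simp; ring

/-- iterated Cauchy-Davenport -/
theorem cd_iter {P : ℕ} (hP : P.Prime) (A : Finset (ZMod P)) (hA : A.Nonempty) (J : ℕ) (hJ : 1 ≤ J) :
    ∃ B : Finset (ZMod P), B.Nonempty ∧ min P (J * (A.card - 1) + 1) ≤ B.card ∧
      ∀ b ∈ B, ∃ f : Fin J → ZMod P, (∀ i, f i ∈ A) ∧ ∑ i, f i = b := by
  classical
  induction J, hJ using Nat.le_induction with
  | base =>
    refine ⟨A, hA, ?_, ?_⟩
    · have : 1 ≤ A.card := Finset.card_pos.2 hA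
      refine (min_le_right _ _).trans ?_
      omega
    · intro b hb
      exact ⟨fun _ => b, fun _ => hb, by simp⟩
  | succ J hJ ih =>
    obtain ⟨B, hB, hBc, hBs⟩ := ih
    refine ⟨B + A, hB.add hA, ?_, ?_⟩
    · have h1 := ZMod.cauchy_davenport hP hB hA
      refine le_trans ?_ h1
      apply le_min (min_le_left _ _)
      have h2 : 1 ≤ A.card := Finset.card_pos.2 hA
      rcases le_total P (J * (A.card - 1) + 1) with h3 | h3
      · rw [min_eq_left h3] at hBc
        refine (min_le_left _ _).trans ?_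
        omega
      · rw [min_eq_right h3] at hBc
        refine (min_le_right _ _).trans ?_
        have h4 : (J + 1) * (A.card - 1) = J * (A.card - 1) + (A.card - 1) := by ring
        omega
    · intro b hb
      obtain ⟨c, hc, a, ha, rfl⟩ := Finset.mem_add.1 hb
      obtain ⟨f, hf, hfs⟩ := hBs c hc
      refine ⟨Fin.snoc f a, ?_, ?_⟩
      · intro i
        refine Fin.lastCases ?_ (fun j => ?_) i
        · simpa using ha
        · simpa using hf j
      · rw [Fin.sum_univ_castSucc]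
        simp [hfs]

/-- If the fractional parts of `u · v`, `u` in a box, are well separated, then sums of `J` box
vectors realise every target approximately. -/
theorem cover_targets (m Q J P : ℕ) (hP : P.Prime) (hQ : 0 < Q) (hJ : 1 ≤ J)
    (hJP : P ≤ J * (Q ^ m - 1) + 1) (v : Fin m → ℝ)
    (hsep : ∀ u : Fin m → ℤ, u ≠ 0 → (∀ i, |u i| < Q) → ∀ p : ℤ, 1 / (P : ℝ) ≤ |∑ i, u i * v i - p|)
    (y : ℝ) : ∃ (u : Fin m → ℤ) (p : ℤ), (∀ i, 0 ≤ u i ∧ u i ≤ J * Q) ∧
      |∑ i, u i * v i - y - p| ≤ J / P := by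
  classical
  have : NeZero P := ⟨hP.ne_zero⟩
  have hPpos : (0:ℝ) < P := by exact_mod_cast hP.pos
  set s : (Fin m → Fin Q) → ℝ := fun u => ∑ i, ((u i : ℕ) : ℝ) * v i with hs
  set φ : (Fin m → Fin Q) → ZMod P := fun u => ((⌊(P : ℝ) * s u⌋ : ℤ) : ZMod P) with hφ
  have hinj : Function.Injective φ := by
    intro u u' huu
    by_contra hne
    simp only [hφ] at huu
    rw [ZMod.intCast_eq_intCast_iff] at huu
    have hd := huu.symm.dvd
    obtain ⟨p, hp⟩ := hd
    set w : Fin m → ℤ := fun i => ((u i : ℕ) : ℤ) - ((u' i : ℕ) : ℤ) with hw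
    have hw0 : w ≠ 0 := by
      intro h0
      apply hne
      funext i
      have := congrFun h0 i
      simp only [hw, Pi.zero_apply] at this
      apply Fin.ext
      omega
    have hwQ : ∀ i, |w i| < Q := by
      intro i
      have h1 := (u i).2
      have h2 := (u' i).2
      simp only [hw]
      rw [abs_lt]
      constructor <;> omega
    have h1 := hsep w hw0 hwQ p
    have h2 : ∑ i, (w i : ℝ) * v i = s u - s u' := by
      simp only [hw, hs]
      rw [← Finset.sum_sub_distrib]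
      apply Finset.sum_congr rfl
      intro i _
      push_cast
      ring
    rw [h2] at h1
    have h3 : ((⌊(P : ℝ) * s u⌋ : ℤ) : ℝ) - ((⌊(P : ℝ) * s u'⌋ : ℤ) : ℝ) = P * p := by
      exact_mod_cast hp
    have h4 := Int.floor_le ((P : ℝ) * s u)
    have h5 := Int.lt_floor_add_one ((P : ℝ) * s u)
    have h6 := Int.floor_le ((P : ℝ) * s u')
    have h7 := Int.lt_floor_add_one ((P : ℝ) * s u')
    have h8 : |(P : ℝ) * (s u - s u' - p)| < 1 := by
      have : (P : ℝ) * (s u - s u' - p) = (P * s u - P * s u') - P * p := by ring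
      rw [this, abs_lt]
      constructor <;> linarith
    rw [abs_mul, abs_of_pos hPpos] at h8
    rw [div_le_iff₀ hPpos] at h1
    linarith
  set A : Finset (ZMod P) := Finset.univ.image φ with hA
  have hAcard : A.card = Q ^ m := by
    rw [hA, Finset.card_image_of_injective _ hinj, Finset.card_univ]
    simp
  have hAne : A.Nonempty := by
    rw [← Finset.card_pos, hAcard]
    positivity
  obtain ⟨B, -, hBc, hBs⟩ := cd_iter hP A hAne J hJ
  have hBuniv : B = Finset.univ := by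
    rw [← Finset.card_eq_iff_eq_univ, ZMod.card]
    apply le_antisymm
    · have := Finset.card_le_univ B
      rwa [ZMod.card] at this
    · rw [hAcard, min_eq_left hJP] at hBc
      exact hBc
  obtain ⟨f, hf, hfs⟩ := hBs ((⌊(P : ℝ) * y⌋ : ℤ) : ZMod P) (by rw [hBuniv]; exact Finset.mem_univ _)
  have hf2 : ∀ i, ∃ u, φ u = f i := by
    intro i
    have := hf i
    rw [hA, Finset.mem_image] at this
    obtain ⟨u, -, hu⟩ := this
    exact ⟨u, hu⟩
  choose u hu using hf2
  have hsum : ((∑ j, ⌊(P : ℝ) * s (u j)⌋ : ℤ) : ZMod P) = ((⌊(P : ℝ) * y⌋ : ℤ) : ZMod P) := by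
    rw [← hfs]
    push_cast
    apply Finset.sum_congr rfl
    intro j _
    rw [← hu j]
  rw [ZMod.intCast_eq_intCast_iff] at hsum
  obtain ⟨p, hp⟩ := hsum.symm.dvd
  refine ⟨fun i => ∑ j, ((u j i : ℕ) : ℤ), p, ?_, ?_⟩
  · intro i
    constructor
    · exact Finset.sum_nonneg fun j _ => by positivity
    · calc ∑ j : Fin J, ((u j i : ℕ) : ℤ) ≤ ∑ j : Fin J, (Q : ℤ) := by
            apply Finset.sum_le_sum
            intro j _
            have := (u j i).2
            omega
        _ = J * Q := by simp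
  · have h1 : ∑ i, ((∑ j, ((u j i : ℕ) : ℤ) : ℤ) : ℝ) * v i = ∑ j, s (u j) := by
      simp only [hs]
      rw [Finset.sum_comm]
      apply Finset.sum_congr rfl
      intro i _
      push_cast
      rw [Finset.sum_mul]
    rw [h1]
    have h2 : (∑ j, ((⌊(P : ℝ) * s (u j)⌋ : ℤ) : ℝ)) - ((⌊(P : ℝ) * y⌋ : ℤ) : ℝ) = P * p := by
      exact_mod_cast hp
    have h3 : ∑ j, ((⌊(P : ℝ) * s (u j)⌋ : ℤ) : ℝ) ≤ P * ∑ j, s (u j) := by
      rw [Finset.mul_sum]
      exact Finset.sum_le_sum fun j _ => Int.floor_le _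
    have h4 : P * ∑ j, s (u j) ≤ ∑ j, ((⌊(P : ℝ) * s (u j)⌋ : ℤ) : ℝ) + J := by
      rw [Finset.mul_sum]
      have : (J : ℝ) = ∑ j : Fin J, (1 : ℝ) := by simp
      rw [this, ← Finset.sum_add_distrib]
      exact Finset.sum_le_sum fun j _ => (Int.lt_floor_add_one _).le
    have h5 := Int.floor_le ((P : ℝ) * y)
    have h6 := Int.lt_floor_add_one ((P : ℝ) * y)
    have hJ1 : (1:ℝ) ≤ J := by exact_mod_cast hJ
    rw [le_div_iff₀ hPpos]
    have h7 : |∑ j, s (u j) - y - p| * P = |P * ∑ j, s (u j) - P * y - P * p| := by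
      rw [← abs_of_pos hPpos, ← abs_mul, abs_of_pos hPpos]
      congr 1
      ring
    rw [h7, abs_le]
    constructor <;> linarith

end Pool.Agent.Lib.MP_3013d0_nt
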