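import Pool.Agent.Lib.MP_3013d0_nt.NT

open Set Filter Topology MeasureTheory

namespace Pool.Agent.Lib.MP_3013d0_nt

/-- the centres at level `k` -/
def Cen (n : ℕ) (x : Fin n → ℝ) (θ : ℝ) (k : ℕ) : Set ℝ :=
  {c | ∃ (a : ℤ) (q : Fin n → ℤ) (p : ℤ), 2 ^ (n + 6) * 2 ^ k ≤ a ∧ a ≤ 2 * (2 ^ (n + 6) * 2 ^ k) ∧
    (∀ i, 0 ≤ q i ∧ q i ≤ 2 * (2 ^ (n + 6) * 2 ^ k)) ∧ (a : ℝ) * c + ∑ i, (q i : ℝ) * x i - θ = p}

/-- the number `1/δ_k` -/
def RR (n k : ℕ) : ℕ := 2 ^ (n + 4) * (2 ^ k) ^ (n + 1)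

theorem RR_pos (n k : ℕ) : 0 < RR n k := by unfold RR; positivity

/-- every good `t` is near a centre -/
theorem centre_near (n : ℕ) (x : Fin n → ℝ) (θ : ℝ) (k : ℕ) (hk : 1 ≤ k) (t : ℝ)
    (hgood : ∀ (a : ℤ) (q : Fin n → ℤ), (a ≠ 0 ∨ q ≠ 0) → |a| < 2 ^ k → (∀ i, |q i| < 2 ^ k) →
      ∀ p : ℤ, 1 / (RR n k : ℝ) ≤ |a * t + ∑ i, q i * x i - p|) :
    ∃ c ∈ Cen n x θ k, |t - c| ≤ 1 / (RR n k * 2 ^ k) := by
  obtain ⟨P, hP, hRP, hPR⟩ := Nat.exists_prime_lt_and_le_two_mul (RR n k) (RR_pos n k).ne'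
  have hRpos : (0:ℝ) < RR n k := by exact_mod_cast RR_pos n k
  have hPpos : (0:ℝ) < P := by exact_mod_cast hP.pos
  have hRP' : (RR n k : ℝ) ≤ P := by exact_mod_cast hRP.le
  set J : ℕ := 2 ^ (n + 6) with hJ
  have hJ1 : 1 ≤ J := Nat.one_le_two_pow
  have hJP : P ≤ J * ((2 ^ k) ^ (n + 1) - 1) + 1 := by
    have h1 : 2 ≤ (2 ^ k) ^ (n + 1) := by
      calc 2 = 2 ^ 1 := rfl
        _ ≤ 2 ^ k := Nat.pow_le_pow_right (by norm_num) hk
        _ = (2 ^ k) ^ 1 := (pow_one _).symm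
        _ ≤ (2 ^ k) ^ (n + 1) := Nat.pow_le_pow_right (by positivity) (by omega)
    have h2 : 2 * RR n k = 2 ^ (n + 5) * (2 ^ k) ^ (n + 1) := by
      unfold RR; ring
    have h3 : J = 2 ^ (n + 5) * 2 := by rw [hJ]; ring
    have h4 : 2 ^ (n + 5) * (2 ^ k) ^ (n + 1) ≤ J * ((2 ^ k) ^ (n + 1) - 1) := by
      rw [h3, mul_assoc]
      apply Nat.mul_le_mul_left
      omega
    omega
  obtain ⟨u, p, hu, hup⟩ := cover_targets (n + 1) (2 ^ k) J P hP (by positivity) hJ1 hJP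
    (Fin.cons t x) (by
      intro w hw hwQ p
      have h1 := hgood (w 0) (fun i => w i.succ) (by
        by_contra hcon
        push Not at hcon
        apply hw
        funext i
        refine Fin.cases ?_ (fun j => ?_) i
        · exact hcon.1
        · exact congrFun hcon.2 j) (by exact_mod_cast hwQ 0) (fun i => by exact_mod_cast hwQ i.succ) p
      rw [Fin.sum_univ_succ]
      simp only [Fin.cons_zero, Fin.cons_succ]
      refine le_trans ?_ h1
      exact one_div_le_one_div_of_le hRpos hRP')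
    (θ - J * 2 ^ k * t)
  rw [Fin.sum_univ_succ] at hup
  simp only [Fin.cons_zero, Fin.cons_succ] at hup
  have hu' : ∀ i, 0 ≤ u i ∧ u i ≤ 2 ^ (n + 6) * 2 ^ k := by
    intro i
    have := hu i
    rw [hJ] at this
    push_cast at this
    exact this
  have hJQ : (0:ℤ) < 2 ^ (n + 6) * 2 ^ k := by positivity
  have hapos : (0:ℝ) < ((u 0 + 2 ^ (n + 6) * 2 ^ k : ℤ) : ℝ) := by
    have h0 : (0:ℤ) < u 0 + 2 ^ (n + 6) * 2 ^ k := by linarith [(hu' 0).1]
    exact Int.cast_pos.2 h0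
  refine ⟨(p + θ - ∑ i : Fin n, (u i.succ : ℝ) * x i) / ((u 0 + 2 ^ (n + 6) * 2 ^ k : ℤ) : ℝ),
    ⟨u 0 + 2 ^ (n + 6) * 2 ^ k, fun i => u i.succ, p, ?_, ?_, ?_, ?_⟩, ?_⟩
  · have := (hu' 0).1; omega
  · have := (hu' 0).2; omega
  · intro i
    have := hu' i.succ
    constructor
    · exact this.1
    · have h2 := this.2
      simp only
      omega
  · rw [mul_div_cancel₀ _ hapos.ne']
    ring
  · have h1 : t - (p + θ - ∑ i : Fin n, (u i.succ : ℝ) * x i) / ((u 0 + 2 ^ (n + 6) * 2 ^ k : ℤ) : ℝ) =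
        (u 0 * t + ∑ i : Fin n, (u i.succ : ℝ) * x i - (θ - J * 2 ^ k * t) - p) /
          ((u 0 + 2 ^ (n + 6) * 2 ^ k : ℤ) : ℝ) := by
      rw [eq_div_iff hapos.ne', sub_mul, div_mul_cancel₀ _ hapos.ne', hJ]
      push_cast
      ring
    rw [h1, abs_div, abs_of_pos hapos]
    have h2 : ((2:ℝ) ^ (n + 6) * 2 ^ k) ≤ ((u 0 + 2 ^ (n + 6) * 2 ^ k : ℤ) : ℝ) := by
      have := (hu' 0).1
      have h3 : (2 ^ (n + 6) * 2 ^ k : ℤ) ≤ u 0 + 2 ^ (n + 6) * 2 ^ k := by linarith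
      exact_mod_cast h3
    have h3 : (0:ℝ) < 2 ^ (n + 6) * 2 ^ k := by positivity
    calc |u 0 * t + ∑ i : Fin n, (u i.succ : ℝ) * x i - (θ - J * 2 ^ k * t) - p| /
          ((u 0 + 2 ^ (n + 6) * 2 ^ k : ℤ) : ℝ)
        ≤ (J / P) / (2 ^ (n + 6) * 2 ^ k) := by
          apply div_le_div₀ (by positivity) hup h3 h2
      _ ≤ (J / RR n k) / (2 ^ (n + 6) * 2 ^ k) := by gcongr
      _ = 1 / (RR n k * 2 ^ k) := by
          rw [hJ]
          push_cast
          field_simp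

/-- maximal separated subsets -/
theorem exists_max_sep (S : Set ℝ) (α β τ : ℝ) (hτ : 0 < τ) (hαβ : α ≤ β)
    (hS : ∀ s ∈ S, α ≤ s ∧ s ≤ β) :
    ∃ X : Finset ℝ, (∀ x ∈ X, x ∈ S) ∧ (∀ x ∈ X, ∀ y ∈ X, x ≠ y → τ ≤ |x - y|) ∧
      ∀ s ∈ S, ∃ x ∈ X, |s - x| < τ := by
  classical
  set P : ℕ → Prop := fun n => ∃ X : Finset ℝ, (∀ x ∈ X, x ∈ S) ∧
    (∀ x ∈ X, ∀ y ∈ X, x ≠ y → τ ≤ |x - y|) ∧ X.card = n with hP
  have hbdd : ∀ n, P n → n ≤ ⌊(β - α) / τ + 1⌋₊ := by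
    rintro n ⟨X, hX, hXs, rfl⟩
    have := card_le_of_sep X α β τ hτ hαβ (fun x hx => hS x (hX x hx)) hXs
    exact Nat.le_floor this
  have h0 : P 0 := ⟨∅, by simp, by simp, rfl⟩
  obtain ⟨X, hX, hXs, hXc⟩ := Nat.findGreatest_spec (P := P) (Nat.zero_le ⌊(β - α) / τ + 1⌋₊) h0
  refine ⟨X, hX, hXs, ?_⟩
  intro s hs
  by_contra hcon
  push Not at hcon
  have hsX : s ∉ X := by
    intro h
    have := hcon s h
    rw [sub_self, abs_zero] at this
    linarith
  have hP1 : P (X.card + 1) := by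
    refine ⟨insert s X, ?_, ?_, Finset.card_insert_of_notMem hsX⟩
    · intro x hx
      rcases Finset.mem_insert.1 hx with rfl | hx
      · exact hs
      · exact hX x hx
    · intro x hx y hy hxy
      rcases Finset.mem_insert.1 hx with hx' | hx' <;> rcases Finset.mem_insert.1 hy with hy' | hy'
      · exact absurd (hx'.trans hy'.symm) hxy
      · rw [hx']; exact hcon y hy'
      · rw [abs_sub_comm, hy']; exact hcon x hx'
      · exact hXs x hx' y hy' hxy
  have h1 := Nat.le_findGreatest (hbdd _ hP1) hP1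
  omega

/-- measure of the bad set -/
theorem bad_measure (n : ℕ) (x : Fin n → ℝ) (k : ℕ) (α β : ℝ) (hαβ : α ≤ β)
    (hD : ∀ q : Fin n → ℤ, q ≠ 0 → (∀ i, |q i| < 2 ^ k) → ∀ p : ℤ,
      1 / (RR n k : ℝ) ≤ |∑ i, q i * x i - p|) :
    volume {t : ℝ | t ∈ Icc α β ∧ ¬ (∀ (a : ℤ) (q : Fin n → ℤ), (a ≠ 0 ∨ q ≠ 0) → |a| < 2 ^ k →
      (∀ i, |q i| < 2 ^ k) → ∀ p : ℤ, 1 / (RR n k : ℝ) ≤ |a * t + ∑ i, q i * x i - p|)} ≤
      ENNReal.ofReal ((β - α) / 8 + (1 + k) / (4 * 2 ^ k)) := by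
  classical
  set Q : ℕ := 2 ^ k with hQ
  have hRpos : (0:ℝ) < RR n k := by exact_mod_cast RR_pos n k
  set δ : ℝ := 1 / (RR n k : ℝ) with hδ
  have hδpos : 0 < δ := by positivity
  have hδ2 : δ ≤ 1 / 2 := by
    have h1 : (2:ℝ) ≤ RR n k := by
      have : 2 ≤ RR n k := by
        unfold RR
        calc 2 = 2 ^ 1 * 1 := rfl
          _ ≤ 2 ^ (n + 4) * (2 ^ k) ^ (n + 1) :=
              Nat.mul_le_mul (Nat.pow_le_pow_right (by norm_num) (by omega)) (Nat.one_le_pow _ _ (by positivity))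
      exact_mod_cast this
    exact one_div_le_one_div_of_le (by norm_num) h1
  set F := Fintype.piFinset (fun _ : Fin n => Finset.Ioo (-(Q:ℤ)) Q) with hF
  have hFcard : (F.card : ℝ) ≤ (2 * (Q : ℝ)) ^ n := by
    rw [hF, Fintype.card_piFinset]
    simp only [Finset.prod_const, Finset.card_univ, Fintype.card_fin, Int.card_Ioo]
    push_cast
    have h1 : (((Q:ℤ) - -(Q:ℤ) - 1).toNat : ℝ) ≤ 2 * Q := by
      have h2 : ((Q:ℤ) - -(Q:ℤ) - 1).toNat ≤ 2 * Q := by omega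
      exact_mod_cast h2
    exact pow_le_pow_left₀ (by positivity) h1 n
  have hsub : {t : ℝ | t ∈ Icc α β ∧ ¬ (∀ (a : ℤ) (q : Fin n → ℤ), (a ≠ 0 ∨ q ≠ 0) → |a| < 2 ^ k →
      (∀ i, |q i| < 2 ^ k) → ∀ p : ℤ, δ ≤ |a * t + ∑ i, q i * x i - p|)} ⊆
      ⋃ j ∈ Finset.range Q, ⋃ q ∈ F, {t : ℝ | t ∈ Icc α β ∧ ∃ p : ℤ,
        |((j + 1 : ℕ) : ℝ) * t + (∑ i, (q i : ℝ) * x i) - p| < δ} := by
    rintro t ⟨ht, hbad⟩
    push Not at hbad
    obtain ⟨a, q, haq, ha, hq, p, hp⟩ := hbad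
    have ha0 : a ≠ 0 := by
      rintro rfl
      have hq0 : q ≠ 0 := by simpa using haq
      have := hD q hq0 hq p
      simp only [Int.cast_zero, zero_mul, zero_add] at hp
      linarith
    -- choose the sign
    have key : ∀ (a : ℤ) (q : Fin n → ℤ) (p : ℤ), 0 < a → |a| < 2 ^ k → (∀ i, |q i| < 2 ^ k) →
        |(a : ℝ) * t + ∑ i, (q i : ℝ) * x i - p| < δ →
        t ∈ ⋃ j ∈ Finset.range Q, ⋃ q ∈ F, {t : ℝ | t ∈ Icc α β ∧ ∃ p : ℤ,
        |((j + 1 : ℕ) : ℝ) * t + (∑ i, (q i : ℝ) * x i) - p| < δ} := by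
      intro a q p ha0 ha hq hp
      obtain ⟨j, hj⟩ : ∃ j : ℕ, a = (j : ℤ) + 1 := ⟨(a - 1).toNat, by omega⟩
      simp only [Set.mem_iUnion]
      refine ⟨j, ?_, q, ?_, ht, p, ?_⟩
      · rw [Finset.mem_range]
        rw [abs_of_pos ha0, hj] at ha
        have : (Q : ℤ) = 2 ^ k := by rw [hQ]; push_cast; rfl
        omega
      · rw [hF, Fintype.mem_piFinset]
        intro i
        have := hq i
        rw [abs_lt] at this
        rw [Finset.mem_Ioo]
        have h2 : (Q : ℤ) = 2 ^ k := by rw [hQ]; push_cast; rfl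
        rw [h2]
        exact this
      · rw [hj] at hp
        push_cast at hp ⊢
        exact hp
    rcases lt_or_gt_of_ne ha0 with hneg | hpos
    · refine key (-a) (fun i => - q i) (-p) (by omega) (by rwa [abs_neg]) (fun i => by
        rw [abs_neg]; exact hq i) ?_
      have h1 : ((-a : ℤ) : ℝ) * t + ∑ i, ((-q i : ℤ) : ℝ) * x i - ((-p : ℤ) : ℝ) =
          -(a * t + ∑ i, q i * x i - p) := by
        push_cast
        rw [show (∑ i, -(q i : ℝ) * x i) = -∑ i, (q i : ℝ) * x i by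
          rw [← Finset.sum_neg_distrib]; exact Finset.sum_congr rfl fun i _ => by ring]
        ring
      rw [h1, abs_neg]
      exact hp
    · exact key a q p hpos ha hq hp
  have hlog : (∑ j ∈ Finset.range Q, 1 / ((j + 1 : ℕ) : ℝ)) ≤ 1 + k := by
    have h1 := harmonic_le_one_add_log Q
    have h2 : ((harmonic Q : ℚ) : ℝ) = ∑ j ∈ Finset.range Q, 1 / ((j + 1 : ℕ) : ℝ) := by
      unfold harmonic
      push_cast
      apply Finset.sum_congr rfl
      intro j _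
      rw [one_div]
    rw [h2] at h1
    have h3 : Real.log Q ≤ k := by
      rw [hQ]
      push_cast
      rw [Real.log_pow]
      have h4 : Real.log 2 ≤ 1 := by
        have := Real.log_two_lt_d9
        linarith
      calc (k : ℝ) * Real.log 2 ≤ k * 1 := by gcongr
        _ = k := mul_one _
    linarith
  have hQpos : (0:ℝ) < Q := by
    rw [hQ]; positivity
  calc volume {t : ℝ | t ∈ Icc α β ∧ ¬ (∀ (a : ℤ) (q : Fin n → ℤ), (a ≠ 0 ∨ q ≠ 0) → |a| < 2 ^ k →
      (∀ i, |q i| < 2 ^ k) → ∀ p : ℤ, δ ≤ |a * t + ∑ i, q i * x i - p|)}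
      ≤ volume (⋃ j ∈ Finset.range Q, ⋃ q ∈ F, {t : ℝ | t ∈ Icc α β ∧ ∃ p : ℤ,
        |((j + 1 : ℕ) : ℝ) * t + (∑ i, (q i : ℝ) * x i) - p| < δ}) := measure_mono hsub
    _ ≤ ∑ j ∈ Finset.range Q, ∑ q ∈ F, volume {t : ℝ | t ∈ Icc α β ∧ ∃ p : ℤ,
        |((j + 1 : ℕ) : ℝ) * t + (∑ i, (q i : ℝ) * x i) - p| < δ} := by
        refine (measure_biUnion_finset_le _ _).trans ?_
        apply Finset.sum_le_sum
        intro j _
        exact measure_biUnion_finset_le _ _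
    _ ≤ ∑ j ∈ Finset.range Q, ∑ q ∈ F,
          ENNReal.ofReal (2 * δ * (β - α) + 4 * δ / ((j + 1 : ℕ) : ℝ)) := by
        apply Finset.sum_le_sum
        intro j _
        apply Finset.sum_le_sum
        intro q _
        exact vol_lin α β ((j + 1 : ℕ) : ℝ) _ δ hαβ (by positivity) hδpos hδ2
    _ = ENNReal.ofReal (∑ j ∈ Finset.range Q, F.card * (2 * δ * (β - α) + 4 * δ / ((j + 1 : ℕ) : ℝ))) := by
        have h0 : 0 ≤ β - α := by linarith
        rw [ENNReal.ofReal_sum_of_nonneg (fun j _ => by positivity)]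
        apply Finset.sum_congr rfl
        intro j _
        rw [Finset.sum_const, nsmul_eq_mul, ENNReal.ofReal_mul (Nat.cast_nonneg _),
          ENNReal.ofReal_natCast]
    _ ≤ ENNReal.ofReal ((β - α) / 8 + (1 + k) / (4 * 2 ^ k)) := by
        apply ENNReal.ofReal_le_ofReal
        have h0 : 0 ≤ β - α := by linarith
        have h1 : ∑ j ∈ Finset.range Q, (F.card : ℝ) * (2 * δ * (β - α) + 4 * δ / ((j + 1 : ℕ) : ℝ)) =
            F.card * (Q * (2 * δ * (β - α)) + 4 * δ * ∑ j ∈ Finset.range Q, 1 / ((j + 1 : ℕ) : ℝ)) := by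
          rw [← Finset.mul_sum, Finset.sum_add_distrib, Finset.sum_const, Finset.card_range,
            nsmul_eq_mul, Finset.mul_sum]
          congr 2
          apply Finset.sum_congr rfl
          intro j _
          ring
        rw [h1]
        calc (F.card : ℝ) * (Q * (2 * δ * (β - α)) + 4 * δ * ∑ j ∈ Finset.range Q, 1 / ((j + 1 : ℕ) : ℝ))
            ≤ (2 * (Q:ℝ)) ^ n * (Q * (2 * δ * (β - α)) + 4 * δ * (1 + k)) := by
              have h2 : (0:ℝ) ≤ ∑ j ∈ Finset.range Q, 1 / ((j + 1 : ℕ) : ℝ) :=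
                Finset.sum_nonneg fun j _ => by positivity
              gcongr
          _ = (β - α) / 8 + (1 + k) / (4 * 2 ^ k) := by
              rw [hδ]
              unfold RR
              push_cast
              rw [hQ]
              push_cast
              have h3 : (2:ℝ) ^ (n + 4) = 2 ^ n * 16 := by ring
              have h4 : ((2:ℝ) ^ k) ^ (n + 1) = (2 ^ k) ^ n * 2 ^ k := by ring
              rw [h3, h4, mul_pow]
              have h5 : ((2:ℝ) ^ k) ^ n ≠ 0 := by positivity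
              have h6 : (2:ℝ) ^ k ≠ 0 := by positivity
              have h7 : (2:ℝ) ^ n ≠ 0 := by positivity
              generalize ((2:ℝ) ^ k) ^ n = A at *
              generalize (2:ℝ) ^ k = B at *
              generalize (2:ℝ) ^ n = D at *
              field_simp
              ring

/-- the centres form a regular system -/
theorem regular (n : ℕ) (x : Fin n → ℝ) (θ : ℝ) (K₀ : ℕ)
    (hD : ∀ k ≥ K₀, ∀ q : Fin n → ℤ, q ≠ 0 → (∀ i, |q i| < 2 ^ k) → ∀ p : ℤ,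
      1 / (RR n k : ℝ) ≤ |∑ i, q i * x i - p|) :
    Sys (Cen n x θ) (fun k => ((2:ℝ) ^ k) ^ (n + 2)) (1 / 2 ^ (n + 4)) (2 ^ (n + 1)) := by
  classical
  refine ⟨by positivity, by positivity, ?_, ?_, ?_⟩
  · intro k
    exact one_le_pow₀ (one_le_pow₀ (by norm_num))
  · intro k
    have h1 : ((2:ℝ) ^ (k + 1)) ^ (n + 2) = 2 ^ (n + 2) * (2 ^ k) ^ (n + 2) := by
      rw [pow_succ (2:ℝ) k, mul_pow]; ring
    rw [h1]
    have h2 : (4:ℝ) ≤ 2 ^ (n + 2) := by
      calc (4:ℝ) = 1 * 4 := by norm_num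
        _ ≤ 2 ^ n * 4 := by
            have : (1:ℝ) ≤ 2 ^ n := one_le_pow₀ (by norm_num)
            gcongr
        _ = 2 ^ (n + 2) := by ring
    gcongr
  · intro α β hα hαβ hβ
    have hI : 0 < β - α := by linarith
    -- parameters
    have t1 : Tendsto (fun k : ℕ => (1 + (k:ℝ)) / (4 * 2 ^ k)) atTop (𝓝 0) := by
      have a1 := tendsto_pow_const_div_const_pow_of_one_lt 1 (show (1:ℝ) < 2 by norm_num)
      have a2 := tendsto_pow_const_div_const_pow_of_one_lt 0 (show (1:ℝ) < 2 by norm_num)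
      have a3 := (a1.add a2).const_mul (1 / 4)
      simp only [pow_one, pow_zero, add_zero, mul_zero] at a3
      refine a3.congr fun k => ?_
      have h6 : (2:ℝ) ^ k ≠ 0 := by positivity
      field_simp
      ring
    have t2 : Tendsto (fun k : ℕ => 1 / ((RR n k : ℝ) * 2 ^ k)) atTop (𝓝 0) := by
      have a1 : Tendsto (fun k : ℕ => ((1:ℝ) / 2) ^ k) atTop (𝓝 0) :=
        tendsto_pow_atTop_nhds_zero_of_lt_one (by norm_num) (by norm_num)
      refine squeeze_zero (fun k => by positivity) (fun k => ?_) a1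
      rw [div_pow, one_pow]
      apply one_div_le_one_div_of_le (by positivity)
      have : (1:ℝ) ≤ RR n k := by exact_mod_cast RR_pos n k
      calc (2:ℝ) ^ k = 1 * 2 ^ k := (one_mul _).symm
        _ ≤ RR n k * 2 ^ k := by gcongr
    have e1 := (t1.eventually (gt_mem_nhds (show (0:ℝ) < (β - α) / 8 by positivity)))
    have e2 := (t2.eventually (gt_mem_nhds (show (0:ℝ) < (β - α) / 8 by positivity)))
    obtain ⟨k₀, hk₀⟩ := eventually_atTop.1 (e1.and e2)
    refine ⟨max (max k₀ 1) K₀, ?_⟩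
    intro k hk
    obtain ⟨hb1, hb2⟩ := hk₀ k ((le_max_left _ _).trans ((le_max_left _ _).trans hk))
    have hk1 : 1 ≤ k := (le_max_right _ _).trans ((le_max_left _ _).trans hk)
    have hkK : K₀ ≤ k := (le_max_right _ _).trans hk
    set τ : ℝ := 1 / ((RR n k : ℝ) * 2 ^ k) with hτ
    have hRpos : (0:ℝ) < RR n k := by exact_mod_cast RR_pos n k
    have hτpos : 0 < τ := by positivity
    have hRN : (RR n k : ℝ) * 2 ^ k = 2 ^ (n + 4) * (2 ^ k) ^ (n + 2) := by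
      unfold RR
      push_cast
      ring
    obtain ⟨X, hXS, hXsep, hXmax⟩ := exists_max_sep (Cen n x θ k ∩ Icc α β) α β τ hτpos hαβ.le
      (fun s hs => hs.2)
    refine ⟨X, fun x hx => ⟨(hXS x hx).1, (hXS x hx).2⟩, ?_, ?_⟩
    · intro x hx y hy hxy
      have := hXsep x hx y hy hxy
      rw [hτ, hRN] at this
      rw [div_div]
      exact this
    · -- covering
      set Bad := {t : ℝ | t ∈ Icc α β ∧ ¬ (∀ (a : ℤ) (q : Fin n → ℤ), (a ≠ 0 ∨ q ≠ 0) → |a| < 2 ^ k →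
      (∀ i, |q i| < 2 ^ k) → ∀ p : ℤ, 1 / (RR n k : ℝ) ≤ |a * t + ∑ i, q i * x i - p|)} with hBad
      have hcov : Icc (α + τ) (β - τ) ⊆ Bad ∪ ⋃ x ∈ X, Icc (x - 2 * τ) (x + 2 * τ) := by
        intro t ht
        have htI : t ∈ Icc α β := ⟨by linarith [ht.1], by linarith [ht.2]⟩
        by_cases hg : ∀ (a : ℤ) (q : Fin n → ℤ), (a ≠ 0 ∨ q ≠ 0) → |a| < 2 ^ k →
            (∀ i, |q i| < 2 ^ k) → ∀ p : ℤ, 1 / (RR n k : ℝ) ≤ |a * t + ∑ i, q i * x i - p|
        · right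
          obtain ⟨c, hc, htc⟩ := centre_near n x θ k hk1 t hg
          rw [← hτ, abs_le] at htc
          have hcI : c ∈ Icc α β := ⟨by linarith [ht.1], by linarith [ht.2]⟩
          obtain ⟨x', hx', hcx⟩ := hXmax c ⟨hc, hcI⟩
          rw [abs_lt] at hcx
          simp only [Set.mem_iUnion]
          refine ⟨x', hx', ?_, ?_⟩ <;> linarith
        · left
          exact ⟨htI, hg⟩
      have hm := bad_measure n x k α β hαβ.le (hD k hkK)
      have h1 : volume (Icc (α + τ) (β - τ)) ≤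
          ENNReal.ofReal ((β - α) / 8 + (1 + k) / (4 * 2 ^ k)) + ENNReal.ofReal (X.card * (4 * τ)) := by
        calc volume (Icc (α + τ) (β - τ)) ≤ volume (Bad ∪ ⋃ x ∈ X, Icc (x - 2 * τ) (x + 2 * τ)) :=
              measure_mono hcov
          _ ≤ volume Bad + volume (⋃ x ∈ X, Icc (x - 2 * τ) (x + 2 * τ)) := measure_union_le _ _
          _ ≤ ENNReal.ofReal ((β - α) / 8 + (1 + k) / (4 * 2 ^ k)) +
              ∑ x ∈ X, volume (Icc (x - 2 * τ) (x + 2 * τ)) := by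
              gcongr
              exact measure_biUnion_finset_le _ _
          _ = _ := by
              congr 1
              have : ∀ x ∈ X, volume (Icc (x - 2 * τ) (x + 2 * τ)) = ENNReal.ofReal (4 * τ) := by
                intro x _
                rw [Real.volume_Icc]
                congr 1
                ring
              rw [Finset.sum_congr rfl this, Finset.sum_const, nsmul_eq_mul,
                ENNReal.ofReal_mul (Nat.cast_nonneg _), ENNReal.ofReal_natCast]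
      rw [Real.volume_Icc, ← ENNReal.ofReal_add (by positivity) (by positivity)] at h1
      have h2 := (ENNReal.ofReal_le_ofReal_iff (by positivity)).1 h1
      have h3 : (β - α) / 2 ≤ X.card * (4 * τ) := by linarith
      rw [hτ, hRN] at h3
      have hpos : (0:ℝ) < 2 ^ (n + 4) * (2 ^ k) ^ (n + 2) := by positivity
      have h4 : (X.card : ℝ) * (4 * (1 / (2 ^ (n + 4) * (2 ^ k) ^ (n + 2)))) =
          X.card * 4 / (2 ^ (n + 4) * (2 ^ k) ^ (n + 2)) := by ring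
      rw [h4, le_div_iff₀ hpos] at h3
      have h5 : (2:ℝ) ^ (n + 4) = 8 * 2 ^ (n + 1) := by ring
      rw [h5] at h3
      linarith

end Pool.Agent.Lib.MP_3013d0_nt
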