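import Pool.Agent.Lib.MP_3013d0_nt.Greedy

open Set Filter Topology

namespace Pool.Agent.Lib.MP_3013d0_nt

/-- the interval `[x - ρ, x + ρ]` of `p = (x, ρ, w)` meets `[y, y + δ]` -/
def Meets (p : ℝ × ℝ × ℝ) (y δ : ℝ) : Prop := y ≤ p.1 + p.2.1 ∧ p.1 - p.2.1 ≤ y + δ

/-- disjoint intervals inside an interval: total length -/
theorem sum_len_le (F : Finset (ℝ × ℝ)) (a b : ℝ) (hab : a ≤ b) (hpos : ∀ p ∈ F, 0 < p.2)
    (hin : ∀ p ∈ F, a ≤ p.1 - p.2 ∧ p.1 + p.2 ≤ b)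
    (hdisj : ∀ p ∈ F, ∀ q ∈ F, p ≠ q → p.2 + q.2 < |p.1 - q.1|) :
    ∑ p ∈ F, 2 * p.2 ≤ b - a := by
  have h1 : MeasureTheory.volume (⋃ p ∈ F, Icc (p.1 - p.2) (p.1 + p.2)) =
      ∑ p ∈ F, MeasureTheory.volume (Icc (p.1 - p.2) (p.1 + p.2)) := by
    apply MeasureTheory.measure_biUnion_finset
    · intro p hp q hq hpq
      rw [Function.onFun, Set.disjoint_left]
      intro x hx hx'
      have h2 := hdisj p hp q hq hpq
      rw [lt_abs] at h2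
      rcases h2 with h2 | h2
      · linarith [hx.1, hx.2, hx'.1, hx'.2]
      · linarith [hx.1, hx.2, hx'.1, hx'.2]
    · intro p _
      exact measurableSet_Icc
  have h2 : MeasureTheory.volume (⋃ p ∈ F, Icc (p.1 - p.2) (p.1 + p.2)) ≤
      MeasureTheory.volume (Icc a b) := by
    apply MeasureTheory.measure_mono
    intro x hx
    simp only [Set.mem_iUnion] at hx
    obtain ⟨p, hp, hx⟩ := hx
    exact ⟨(hin p hp).1.trans hx.1, hx.2.trans (hin p hp).2⟩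
  rw [h1, Real.volume_Icc] at h2
  have h3 : ∑ p ∈ F, MeasureTheory.volume (Icc (p.1 - p.2) (p.1 + p.2)) =
      ENNReal.ofReal (∑ p ∈ F, 2 * p.2) := by
    rw [ENNReal.ofReal_sum_of_nonneg]
    · apply Finset.sum_congr rfl
      intro p _
      rw [Real.volume_Icc]
      congr 1
      ring
    · intro p hp
      have := hpos p hp
      positivity
  rw [h3] at h2
  exact (ENNReal.ofReal_le_ofReal_iff (by linarith)).1 h2

/-- the children of an interval -/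
theorem children {h : ℝ → ℝ} {C₀ : ℝ} (hG : Gauge h C₀) (hz : Tendsto h (𝓝[>] 0) (𝓝 0))
    {𝒞 : ℕ → Set ℝ} {N : ℕ → ℝ} {c₁ c₂ : ℝ} (hS : Sys 𝒞 N c₁ c₂) (r : ℕ → ℝ) (hr : ∀ k, 0 < r k)
    (hr0 : Tendsto r atTop (𝓝 0)) (hdiv : ¬ Summable (fun k => N k * h (r k)))
    (α β K W : ℝ) (n₀ : ℕ) (h0 : 0 ≤ α) (h1 : α < β) (h2 : β ≤ 1) (hK : 0 < K) (hW : 0 < W) :
    ∃ G : Finset (ℝ × ℝ × ℝ),
      (∀ p ∈ G, 0 < p.2.1 ∧ (∃ k ≥ n₀, p.1 ∈ 𝒞 k ∧ p.2.1 ≤ r k) ∧ α ≤ p.1 - p.2.1 ∧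
        p.1 + p.2.1 ≤ β ∧ 0 < p.2.2 ∧ p.2.2 ≤ K * h p.2.1) ∧
      (∀ p ∈ G, ∀ q ∈ G, p ≠ q → p.2.1 + q.2.1 < |p.1 - q.1|) ∧
      ∑ p ∈ G, p.2.2 = W ∧
      (∀ y δ, 0 < δ → ∀ T ⊆ G, (∀ p ∈ T, Meets p y δ) → 2 ≤ T.card →
        ∑ p ∈ T, p.2.2 ≤ 4 * W * δ / (c₁ * c₂ / 32 * (β - α))) := by
  classical
  have hℓ : 0 < β - α := by linarith
  have hc₁ := hS.c₁_pos
  have hc₂ := hS.c₂_pos
  set c := c₁ * c₂ / 32 with hc
  have hcpos : 0 < c := by positivity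
  set A := K * c * (β - α) / W with hA
  have hApos : 0 < A := by positivity
  obtain ⟨η, hη, hηbig⟩ : ∃ η > 0, ∀ x, 0 < x → x ≤ η → 2 * x ≤ A * h x := by
    have e1 : ∀ᶠ x in 𝓝[>] (0:ℝ), 2 / A ≤ h x / x := hG.big.eventually_ge_atTop _
    obtain ⟨η, hη, hsub⟩ := mem_nhdsGT_iff_exists_Ioc_subset.1 e1
    refine ⟨η, hη, fun x hx hxη => ?_⟩
    have := hsub ⟨hx, hxη⟩
    simp only [Set.mem_ofPred_eq] at this
    rw [div_le_div_iff₀ hApos hx] at this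
    linarith
  obtain ⟨F, hF, hFsum⟩ := one_step hG hz hS r hr hr0 hdiv α β A η n₀ h0 h1 h2 hApos hη
  set Tot := ∑ p ∈ F, A * h p.2 with hTot
  have hTotpos : 0 < Tot := lt_of_lt_of_le (by positivity) hFsum
  set g : ℝ × ℝ → ℝ × ℝ × ℝ := fun p => (p.1, p.2, W * (A * h p.2) / Tot) with hg
  have hinj : Function.Injective g := by
    intro p q hpq
    simp only [hg, Prod.mk.injEq] at hpq
    exact Prod.ext hpq.1 hpq.2.1
  have hsep : ∀ p ∈ F, ∀ q ∈ F, p ≠ q → p.2 + q.2 < |p.1 - q.1| := by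
    intro p hp q hq hpq
    have h3 := hF.sep p hp q hq hpq
    have h4 := hηbig p.2 (hF.ok p hp).1 (hF.ok p hp).2.1
    have h5 := hηbig q.2 (hF.ok q hq).1 (hF.ok q hq).2.1
    linarith [(hF.ok p hp).1, (hF.ok q hq).1]
  refine ⟨F.image g, ?_, ?_, ?_, ?_⟩
  · intro p hp
    rw [Finset.mem_image] at hp
    obtain ⟨p, hp, rfl⟩ := hp
    obtain ⟨a1, a2, a3, a4, a5⟩ := hF.ok p hp
    have h4 := hηbig p.2 a1 a2
    have hhp := hG.pos _ a1
    refine ⟨a1, a3, ?_, ?_, ?_, ?_⟩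
    · simp only [hg]; linarith
    · simp only [hg]; linarith
    · simp only [hg]; positivity
    · simp only [hg]
      rw [div_le_iff₀ hTotpos]
      calc W * (A * h p.2) = K * h p.2 * (c * (β - α)) := by
            rw [hA]; field_simp
        _ ≤ K * h p.2 * Tot := by gcongr
  · intro p hp q hq hpq
    rw [Finset.mem_image] at hp hq
    obtain ⟨p, hp, rfl⟩ := hp
    obtain ⟨q, hq, rfl⟩ := hq
    exact hsep p hp q hq (fun h => hpq (by rw [h]))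
  · rw [Finset.sum_image (fun x _ y _ h => hinj h)]
    simp only [hg]
    rw [← Finset.sum_div, ← Finset.mul_sum, ← hTot]
    field_simp
  · intro y δ hδ T hT hTm hT2
    obtain ⟨T', hT', rfl⟩ := Finset.subset_image_iff.1 hT
    rw [Finset.card_image_of_injective _ hinj] at hT2
    rw [Finset.sum_image (fun x _ y _ h => hinj h)]
    have hm : ∀ p ∈ T', y ≤ p.1 + p.2 ∧ p.1 - p.2 ≤ y + δ := by
      intro p hp
      have := hTm (g p) (Finset.mem_image_of_mem g hp)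
      exact this
    have hin : ∀ p ∈ T', A * h p.2 < 2 * δ := by
      intro p hp
      obtain ⟨q, hq, hqp⟩ : ∃ q ∈ T', q ≠ p := Finset.exists_mem_ne (by omega) p
      have b1 := hF.sep p (hT' hp) q (hT' hq) (Ne.symm hqp)
      have b2 := hm p hp
      have b3 := hm q hq
      have b4 := hηbig p.2 (hF.ok p (hT' hp)).1 (hF.ok p (hT' hp)).2.1
      have b5 := hηbig q.2 (hF.ok q (hT' hq)).1 (hF.ok q (hT' hq)).2.1
      have b6 := (hF.ok q (hT' hq)).1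
      have b7 : |p.1 - q.1| ≤ p.2 + q.2 + δ := by
        rw [abs_le]; constructor <;> linarith
      linarith
    have hlen := sum_len_le (T'.image (fun p => (p.1, A * h p.2))) (y - 3 * δ) (y + 4 * δ)
      (by linarith)
      (by
        intro p hp
        rw [Finset.mem_image] at hp
        obtain ⟨p, hp, rfl⟩ := hp
        have := hG.pos _ (hF.ok p (hT' hp)).1
        simp only
        positivity)
      (by
        intro p hp
        rw [Finset.mem_image] at hp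
        obtain ⟨p, hp, rfl⟩ := hp
        have b1 := hin p hp
        have b2 := hm p hp
        have b4 := hηbig p.2 (hF.ok p (hT' hp)).1 (hF.ok p (hT' hp)).2.1
        simp only
        constructor <;> linarith)
      (by
        intro p hp q hq hpq
        rw [Finset.mem_image] at hp hq
        obtain ⟨p, hp, rfl⟩ := hp
        obtain ⟨q, hq, rfl⟩ := hq
        exact hF.sep p (hT' hp) q (hT' hq) (fun h => hpq (by rw [h])))
    rw [Finset.sum_image (by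
      intro p hp q hq hpq
      by_contra hne
      have b1 := hF.sep p (hT' hp) q (hT' hq) hne
      simp only [Prod.mk.injEq] at hpq
      rw [hpq.1, sub_self, abs_zero] at b1
      have b2 := hG.pos _ (hF.ok p (hT' hp)).1
      have b3 := hG.pos _ (hF.ok q (hT' hq)).1
      have b4 : 0 < A * h p.2 := by positivity
      have b5 : 0 < A * h q.2 := by positivity
      linarith)] at hlen
    simp only [hg]
    rw [← Finset.sum_div, ← Finset.mul_sum]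
    have hsum : ∑ p ∈ T', A * h p.2 ≤ 4 * δ := by
      have : ∑ p ∈ T', 2 * (A * h p.2) = 2 * ∑ p ∈ T', A * h p.2 := by rw [Finset.mul_sum]
      rw [this] at hlen
      linarith
    rw [div_le_div_iff₀ hTotpos (by positivity)]
    calc W * (∑ p ∈ T', A * h p.2) * (c * (β - α)) ≤ W * (4 * δ) * Tot := by
          gcongr
      _ = 4 * W * δ * Tot := by ring

/-- one stage of the Cantor construction -/
structure Stage (h : ℝ → ℝ) (K Cc ρ₀ : ℝ) (S : Finset (ℝ × ℝ × ℝ)) : Prop where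
  rpos : ∀ p ∈ S, 0 < p.2.1
  inI : ∀ p ∈ S, 0 ≤ p.1 - p.2.1 ∧ p.1 + p.2.1 ≤ 1
  disj : ∀ p ∈ S, ∀ q ∈ S, p ≠ q → p.2.1 + q.2.1 < |p.1 - q.1|
  wpos : ∀ p ∈ S, 0 < p.2.2
  wsum : ∑ p ∈ S, p.2.2 = 1
  wle : ∀ p ∈ S, p.2.2 ≤ K * h p.2.1
  two : ∀ y δ, 0 < δ → δ ≤ ρ₀ → ∀ T ⊆ S, (∀ p ∈ T, Meets p y δ) → 2 ≤ T.card →
    ∑ p ∈ T, p.2.2 ≤ K * Cc * h δ

/-- the first stage -/
theorem stage_zero {h : ℝ → ℝ} {C₀ : ℝ} (hG : Gauge h C₀) (hz : Tendsto h (𝓝[>] 0) (𝓝 0))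
    {𝒞 : ℕ → Set ℝ} {N : ℕ → ℝ} {c₁ c₂ : ℝ} (hS : Sys 𝒞 N c₁ c₂) (r : ℕ → ℝ) (hr : ∀ k, 0 < r k)
    (hr0 : Tendsto r atTop (𝓝 0)) (hdiv : ¬ Summable (fun k => N k * h (r k)))
    (K Cc ρ₀ : ℝ) (hK : 0 < K) (hCc : 1 ≤ Cc)
    (hρ₀ : ∀ δ, 0 < δ → δ ≤ ρ₀ → 4 * δ / (c₁ * c₂ / 32) ≤ K * h δ) :
    ∃ S : Finset (ℝ × ℝ × ℝ), Stage h K Cc ρ₀ S := by
  obtain ⟨G, g1, g2, g3, g4⟩ := children hG hz hS r hr hr0 hdiv 0 1 K 1 0 le_rfl one_pos le_rfl hK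
    one_pos
  refine ⟨G, ⟨fun p hp => (g1 p hp).1, fun p hp => ⟨(g1 p hp).2.2.1, (g1 p hp).2.2.2.1⟩, g2,
    fun p hp => (g1 p hp).2.2.2.2.1, g3, fun p hp => (g1 p hp).2.2.2.2.2, ?_⟩⟩
  intro y δ hδ hδ2 T hT hTm hT2
  have h1 := g4 y δ hδ T hT hTm hT2
  have h2 := hρ₀ δ hδ hδ2
  have h3 := hG.pos δ hδ
  refine h1.trans ?_
  have h4 : 4 * 1 * δ / (c₁ * c₂ / 32 * (1 - 0)) = 4 * δ / (c₁ * c₂ / 32) := by
    rw [sub_zero, mul_one, mul_one]
  rw [h4]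
  refine h2.trans ?_
  calc K * h δ = K * 1 * h δ := by ring
    _ ≤ K * Cc * h δ := by gcongr

/-- the next stage -/
theorem stage_succ {h : ℝ → ℝ} {C₀ : ℝ} (hG : Gauge h C₀) (hz : Tendsto h (𝓝[>] 0) (𝓝 0))
    {𝒞 : ℕ → Set ℝ} {N : ℕ → ℝ} {c₁ c₂ : ℝ} (hS : Sys 𝒞 N c₁ c₂) (r : ℕ → ℝ) (hr : ∀ k, 0 < r k)
    (hr0 : Tendsto r atTop (𝓝 0)) (hdiv : ¬ Summable (fun k => N k * h (r k)))
    (K Cc ρ₀ : ℝ) (hK : 0 < K) (hCc : 1 ≤ Cc) (hCc2 : 2 * C₀ / (c₁ * c₂ / 32) ≤ Cc) (n₀ : ℕ)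
    (S : Finset (ℝ × ℝ × ℝ)) (hst : Stage h K Cc ρ₀ S) :
    ∃ S' : Finset (ℝ × ℝ × ℝ), Stage h K Cc ρ₀ S' ∧ ∀ q ∈ S', (∃ k ≥ n₀, q.1 ∈ 𝒞 k ∧ q.2.1 ≤ r k) ∧
      ∃ p ∈ S, p.1 - p.2.1 ≤ q.1 - q.2.1 ∧ q.1 + q.2.1 ≤ p.1 + p.2.1 := by
  classical
  have hc₁ := hS.c₁_pos
  have hc₂ := hS.c₂_pos
  have hcpos : 0 < c₁ * c₂ / 32 := by positivity
  have hch : ∀ p ∈ S, ∃ G : Finset (ℝ × ℝ × ℝ),
      (∀ q ∈ G, 0 < q.2.1 ∧ (∃ k ≥ n₀, q.1 ∈ 𝒞 k ∧ q.2.1 ≤ r k) ∧ p.1 - p.2.1 ≤ q.1 - q.2.1 ∧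
        q.1 + q.2.1 ≤ p.1 + p.2.1 ∧ 0 < q.2.2 ∧ q.2.2 ≤ K * h q.2.1) ∧
      (∀ q ∈ G, ∀ q' ∈ G, q ≠ q' → q.2.1 + q'.2.1 < |q.1 - q'.1|) ∧
      ∑ q ∈ G, q.2.2 = p.2.2 ∧
      (∀ y δ, 0 < δ → ∀ T ⊆ G, (∀ q ∈ T, Meets q y δ) → 2 ≤ T.card →
        ∑ q ∈ T, q.2.2 ≤ 4 * p.2.2 * δ / (c₁ * c₂ / 32 * ((p.1 + p.2.1) - (p.1 - p.2.1)))) := by
    intro p hp
    exact children hG hz hS r hr hr0 hdiv (p.1 - p.2.1) (p.1 + p.2.1) K p.2.2 n₀ (hst.inI p hp).1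
      (by linarith [hst.rpos p hp]) (hst.inI p hp).2 hK (hst.wpos p hp)
  choose! G g1 g2 g3 g4 using hch
  -- children of different parents are far apart
  have hfar : ∀ p ∈ S, ∀ p' ∈ S, p ≠ p' → ∀ q ∈ G p, ∀ q' ∈ G p', q.2.1 + q'.2.1 < |q.1 - q'.1| := by
    intro p hp p' hp' hpp q hq q' hq'
    have a1 := hst.disj p hp p' hp' hpp
    obtain ⟨-, -, b1, b2, -, -⟩ := g1 p hp q hq
    obtain ⟨-, -, b3, b4, -, -⟩ := g1 p' hp' q' hq'
    rw [lt_abs] at a1 ⊢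
    rcases a1 with a1 | a1
    · left; linarith
    · right; linarith
  have hdisjG : ∀ p ∈ S, ∀ p' ∈ S, p ≠ p' → Disjoint (G p) (G p') := by
    intro p hp p' hp' hpp
    rw [Finset.disjoint_left]
    intro q hq hq'
    have := hfar p hp p' hp' hpp q hq q hq'
    rw [sub_self, abs_zero] at this
    linarith [(g1 p hp q hq).1]
  refine ⟨S.biUnion G, ⟨?_, ?_, ?_, ?_, ?_, ?_, ?_⟩, ?_⟩
  · intro q hq
    obtain ⟨p, hp, hq⟩ := Finset.mem_biUnion.1 hq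
    exact (g1 p hp q hq).1
  · intro q hq
    obtain ⟨p, hp, hq⟩ := Finset.mem_biUnion.1 hq
    obtain ⟨-, -, b1, b2, -, -⟩ := g1 p hp q hq
    have := hst.inI p hp
    constructor <;> linarith
  · intro q hq q' hq' hqq
    obtain ⟨p, hp, hq⟩ := Finset.mem_biUnion.1 hq
    obtain ⟨p', hp', hq'⟩ := Finset.mem_biUnion.1 hq'
    by_cases hpp : p = p'
    · subst hpp
      exact g2 p hp q hq q' hq' hqq
    · exact hfar p hp p' hp' hpp q hq q' hq'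
  · intro q hq
    obtain ⟨p, hp, hq⟩ := Finset.mem_biUnion.1 hq
    exact (g1 p hp q hq).2.2.2.2.1
  · rw [Finset.sum_biUnion]
    · rw [← hst.wsum]
      exact Finset.sum_congr rfl fun p hp => g3 p hp
    · intro p hp p' hp' hpp
      exact hdisjG p hp p' hp' hpp
  · intro q hq
    obtain ⟨p, hp, hq⟩ := Finset.mem_biUnion.1 hq
    exact (g1 p hp q hq).2.2.2.2.2
  · intro y δ hδ hδ2 T hT hTm hT2
    have hhδ := hG.pos δ hδ
    by_cases hone : ∃ p ∈ S, T ⊆ G p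
    · obtain ⟨p, hp, hTp⟩ := hone
      have hrp := hst.rpos p hp
      have hw := hst.wle p hp
      have hwp := hst.wpos p hp
      by_cases hδr : δ ≤ p.2.1
      · have h1 := g4 p hp y δ hδ T hTp hTm hT2
        refine h1.trans ?_
        have h2 := hG.quasi δ p.2.1 hδ hδr
        have h3 : 4 * p.2.2 * δ / (c₁ * c₂ / 32 * ((p.1 + p.2.1) - (p.1 - p.2.1))) =
            2 / (c₁ * c₂ / 32) * (p.2.2 / p.2.1) * δ := by
          have h4 : (p.1 + p.2.1) - (p.1 - p.2.1) = 2 * p.2.1 := by ring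
          rw [h4]
          field_simp
          try ring
        rw [h3]
        calc 2 / (c₁ * c₂ / 32) * (p.2.2 / p.2.1) * δ
            ≤ 2 / (c₁ * c₂ / 32) * (K * h p.2.1 / p.2.1) * δ := by gcongr
          _ = 2 / (c₁ * c₂ / 32) * K * (h p.2.1 / p.2.1) * δ := by ring
          _ ≤ 2 / (c₁ * c₂ / 32) * K * (C₀ * (h δ / δ)) * δ := by gcongr
          _ = K * (2 * C₀ / (c₁ * c₂ / 32)) * h δ := by field_simp
          _ ≤ K * Cc * h δ := by gcongr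
      · push Not at hδr
        calc ∑ q ∈ T, q.2.2 ≤ ∑ q ∈ G p, q.2.2 :=
              Finset.sum_le_sum_of_subset_of_nonneg hTp
                (fun q hq _ => (g1 p hp q hq).2.2.2.2.1.le)
          _ = p.2.2 := g3 p hp
          _ ≤ K * h p.2.1 := hw
          _ ≤ K * h δ := by
              have := hG.mono _ _ hrp hδr.le
              gcongr
          _ = K * 1 * h δ := by ring
          _ ≤ K * Cc * h δ := by gcongr
    · push Not at hone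
      set P := S.filter (fun p => ∃ q ∈ T, q ∈ G p) with hP
      have hPS : P ⊆ S := Finset.filter_subset _ _
      have hPm : ∀ p ∈ P, Meets p y δ := by
        intro p hp
        obtain ⟨hpS, q, hqT, hqp⟩ := Finset.mem_filter.1 hp
        have hm := hTm q hqT
        obtain ⟨-, -, b1, b2, -, -⟩ := g1 p hpS q hqp
        exact ⟨hm.1.trans b2, b1.trans hm.2⟩
      have hP2 : 2 ≤ P.card := by
        -- T is nonempty; take q with parent p; there is q' not in G p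
        have hTne : T.Nonempty := Finset.card_pos.1 (by omega)
        obtain ⟨q, hq⟩ := hTne
        obtain ⟨p, hp, hqp⟩ := Finset.mem_biUnion.1 (hT hq)
        obtain ⟨q', hq', hq'p⟩ := Finset.not_subset.1 (hone p hp)
        obtain ⟨p', hp', hqp'⟩ := Finset.mem_biUnion.1 (hT hq')
        have hne : p ≠ p' := by
          rintro rfl
          exact hq'p hqp'
        have h1 : p ∈ P := Finset.mem_filter.2 ⟨hp, q, hq, hqp⟩
        have h2 : p' ∈ P := Finset.mem_filter.2 ⟨hp', q', hq', hqp'⟩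
        exact Finset.one_lt_card.2 ⟨p, h1, p', h2, hne⟩
      have h1 := hst.two y δ hδ hδ2 P hPS hPm hP2
      refine le_trans ?_ h1
      have hTsub : T ⊆ P.biUnion G := by
        intro q hq
        obtain ⟨p, hp, hqp⟩ := Finset.mem_biUnion.1 (hT hq)
        exact Finset.mem_biUnion.2 ⟨p, Finset.mem_filter.2 ⟨hp, q, hq, hqp⟩, hqp⟩
      calc ∑ q ∈ T, q.2.2 ≤ ∑ q ∈ P.biUnion G, q.2.2 := by
            apply Finset.sum_le_sum_of_subset_of_nonneg hTsub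
            intro q hq _
            obtain ⟨p, hp, hqp⟩ := Finset.mem_biUnion.1 hq
            exact (g1 p (hPS hp) q hqp).2.2.2.2.1.le
        _ = ∑ p ∈ P, ∑ q ∈ G p, q.2.2 := by
            rw [Finset.sum_biUnion]
            intro p hp p' hp' hpp
            exact hdisjG p (hPS hp) p' (hPS hp') hpp
        _ = ∑ p ∈ P, p.2.2 := Finset.sum_congr rfl fun p hp => g3 p (hPS hp)
  · intro q hq
    obtain ⟨p, hp, hq⟩ := Finset.mem_biUnion.1 hq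
    obtain ⟨-, b0, b1, b2, -, -⟩ := g1 p hp q hq
    exact ⟨b0, p, hp, b1, b2⟩

end Pool.Agent.Lib.MP_3013d0_nt
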