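import Mathlib

open Set Filter Topology

namespace Pool.Agent.Lib.MP_3013d0_nt

/-- a finite `τ`-separated subset of `[α, β]` has at most `(β - α) / τ + 1` elements -/
theorem card_le_of_sep (X : Finset ℝ) (α β τ : ℝ) (hτ : 0 < τ) (hαβ : α ≤ β)
    (hX : ∀ x ∈ X, α ≤ x ∧ x ≤ β) (hsep : ∀ x ∈ X, ∀ y ∈ X, x ≠ y → τ ≤ |x - y|) :
    (X.card : ℝ) ≤ (β - α) / τ + 1 := by
  have h1 : X.card ≤ (Finset.range (⌊(β - α) / τ⌋₊ + 1)).card := by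
    refine Finset.card_le_card_of_injOn (fun x => ⌊(x - α) / τ⌋₊) ?_ ?_
    · intro x hx
      have h2 := hX x hx
      simp only [Finset.coe_range, Set.mem_Iio]
      apply Nat.lt_succ_of_le
      apply Nat.floor_le_floor
      gcongr
      exact h2.2
    · intro x hx y hy hxy
      by_contra hne
      have h2 := hX x hx
      have h3 := hX y hy
      have h4 := hsep x hx y hy hne
      have hx0 : 0 ≤ (x - α) / τ := div_nonneg (by linarith) hτ.le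
      have hy0 : 0 ≤ (y - α) / τ := div_nonneg (by linarith) hτ.le
      simp only at hxy
      have e1 := Nat.floor_le hx0
      have e2 := Nat.lt_floor_add_one ((x - α) / τ)
      have e3 := Nat.floor_le hy0
      have e4 := Nat.lt_floor_add_one ((y - α) / τ)
      rw [hxy] at e1 e2
      have h5 : |(x - α) / τ - (y - α) / τ| < 1 := by
        rw [abs_lt]; constructor <;> linarith
      have h6 : (x - α) / τ - (y - α) / τ = (x - y) / τ := by ring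
      rw [h6, abs_div, abs_of_pos hτ, div_lt_one hτ] at h5
      linarith
  rw [Finset.card_range] at h1
  have h2 : (⌊(β - α) / τ⌋₊ : ℝ) ≤ (β - α) / τ :=
    Nat.floor_le (div_nonneg (by linarith) hτ.le)
  calc (X.card : ℝ) ≤ ((⌊(β - α) / τ⌋₊ + 1 : ℕ) : ℝ) := by exact_mod_cast h1
    _ ≤ _ := by push_cast; linarith

/-- gauge functions on the line -/
structure Gauge (h : ℝ → ℝ) (C₀ : ℝ) : Prop where
  pos : ∀ x, 0 < x → 0 < h x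
  mono : ∀ x y, 0 < x → x ≤ y → h x ≤ h y
  cont : ContinuousOn h (Ioi 0)
  quasi : ∀ x y, 0 < x → x ≤ y → h y / y ≤ C₀ * (h x / x)
  big : Tendsto (fun x => h x / x) (𝓝[>] 0) atTop

/-- regular systems of points in `[0,1]` -/
structure Sys (𝒞 : ℕ → Set ℝ) (N : ℕ → ℝ) (c₁ c₂ : ℝ) : Prop where
  c₁_pos : 0 < c₁
  c₂_pos : 0 < c₂
  N_one : ∀ k, 1 ≤ N k
  N_grow : ∀ k, 4 * N k ≤ N (k + 1)
  reg : ∀ α β, 0 ≤ α → α < β → β ≤ 1 → ∃ k₀, ∀ k ≥ k₀, ∃ X : Finset ℝ,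
    (∀ x ∈ X, x ∈ 𝒞 k ∧ α ≤ x ∧ x ≤ β) ∧
    (∀ x ∈ X, ∀ y ∈ X, x ≠ y → c₁ / N k ≤ |x - y|) ∧ c₂ * N k * (β - α) ≤ X.card

theorem Sys.N_ge {𝒞 : ℕ → Set ℝ} {N : ℕ → ℝ} {c₁ c₂ : ℝ} (hS : Sys 𝒞 N c₁ c₂) (k : ℕ) :
    (4 : ℝ) ^ k ≤ N k := by
  induction k with
  | zero => simpa using hS.N_one 0
  | succ k ih =>
    calc (4 : ℝ) ^ (k + 1) = 4 * 4 ^ k := by ring
      _ ≤ 4 * N k := by linarith
      _ ≤ N (k + 1) := hS.N_grow k

theorem Sys.tendsto_N {𝒞 : ℕ → Set ℝ} {N : ℕ → ℝ} {c₁ c₂ : ℝ} (hS : Sys 𝒞 N c₁ c₂) :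
    Tendsto N atTop atTop :=
  tendsto_atTop_mono hS.N_ge (tendsto_pow_atTop_atTop_of_one_lt (by norm_num))

/-- linear growth is eventually dominated by `κ N_k` -/
theorem Sys.eventually_big {𝒞 : ℕ → Set ℝ} {N : ℕ → ℝ} {c₁ c₂ : ℝ} (hS : Sys 𝒞 N c₁ c₂) (κ : ℝ)
    (hκ : 0 < κ) : ∃ k₀ : ℕ, ∀ k ≥ k₀, 2 * (k : ℝ) + 2 ≤ κ * N k := by
  obtain ⟨k₀, hk₀⟩ := pow_unbounded_of_one_lt (2 / κ) (show (1 : ℝ) < 2 by norm_num)
  refine ⟨k₀, fun k hk => ?_⟩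
  have h1 : (2 : ℝ) ^ k₀ ≤ 2 ^ k := pow_le_pow_right₀ (by norm_num) hk
  have h2 : (k : ℝ) + 1 ≤ 2 ^ k := by
    have : k + 1 ≤ 2 ^ k := Nat.lt_two_pow_self
    exact_mod_cast this
  have h3 : (4 : ℝ) ^ k = 2 ^ k * 2 ^ k := by
    rw [← mul_pow]; norm_num
  have h4 := hS.N_ge k
  have h5 : 2 / κ < 2 ^ k := lt_of_lt_of_le hk₀ h1
  rw [div_lt_iff₀ hκ] at h5
  calc 2 * (k : ℝ) + 2 = 2 * ((k : ℝ) + 1) := by ring
    _ ≤ (2 ^ k * κ) * 2 ^ k := by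
        apply mul_le_mul h5.le h2 (by positivity) (by positivity)
    _ = κ * (4 : ℝ) ^ k := by rw [h3]; ring
    _ ≤ κ * N k := by gcongr

end Pool.Agent.Lib.MP_3013d0_nt
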